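import Mathlib

set_option autoImplicit false

open MeasureTheory Set Filter Topology

namespace Pool.Agent.Q93.LT

/-- `f` is a primitive of the locally integrable function `f'`. -/
structure Prim (f f' : ℝ → ℝ) : Prop where
  ii : ∀ a b, IntervalIntegrable f' volume a b
  eq : ∀ a b, f b - f a = ∫ x in a..b, f' x

namespace Prim

variable {f f' g g' : ℝ → ℝ}

lemma form (hf : Prim f f') (a : ℝ) : f = fun x => f a + ∫ t in a..x, f' t := by
  funext x
  have := hf.eq a x
  linarith

lemma cont (hf : Prim f f') : Continuous f := by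
  rw [hf.form 0]
  exact continuous_const.add (intervalIntegral.continuous_primitive hf.ii 0)

lemma ac (hf : Prim f f') (a b : ℝ) : AbsolutelyContinuousOnInterval f a b := by
  have h1 := (hf.ii a b).absolutelyContinuousOnInterval_intervalIntegral (c := a) (by simp)
  have h2 : AbsolutelyContinuousOnInterval (fun _ : ℝ => f a) a b :=
    (LipschitzWith.const (f a)).lipschitzOnWith.absolutelyContinuousOnInterval
  have h3 := h2.add h1
  have h4 : f = (fun _ : ℝ => f a) + fun x => ∫ v in a..x, f' v := by
    funext x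
    have := congrFun (hf.form a) x
    simpa using this
  rw [h4]
  exact h3

lemma ae (hf : Prim f f') (a b : ℝ) : ∀ᵐ x, x ∈ uIcc a b → HasDerivAt f (f' x) x := by
  filter_upwards [(hf.ii a b).ae_hasDerivAt_integral] with x hx hxm
  have h1 := hx hxm a (by simp)
  rw [hf.form a]
  exact h1.const_add _

lemma mul (hf : Prim f f') (hg : Prim g g') :
    Prim (fun x => f x * g x) (fun x => f' x * g x + f x * g' x) := by
  refine ⟨fun a b => ((hf.ii a b).mul_continuousOn hg.cont.continuousOn).add
    ((hg.ii a b).continuousOn_mul hf.cont.continuousOn), fun a b => ?_⟩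
  rw [← AbsolutelyContinuousOnInterval.integral_deriv_mul_eq_sub (hf.ac a b) (hg.ac a b)]
  refine intervalIntegral.integral_congr_ae ?_
  filter_upwards [hf.ae a b, hg.ae a b] with x h1 h2 hx
  have hx' : x ∈ uIcc a b := uIoc_subset_uIcc hx
  rw [(h1 hx').deriv, (h2 hx').deriv]

lemma add (hf : Prim f f') (hg : Prim g g') :
    Prim (fun x => f x + g x) (fun x => f' x + g' x) := by
  refine ⟨fun a b => (hf.ii a b).add (hg.ii a b), fun a b => ?_⟩
  rw [intervalIntegral.integral_add (hf.ii a b) (hg.ii a b), ← hf.eq, ← hg.eq]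
  ring

lemma const_mul (c : ℝ) (hf : Prim f f') : Prim (fun x => c * f x) (fun x => c * f' x) := by
  refine ⟨fun a b => (hf.ii a b).const_mul c, fun a b => ?_⟩
  rw [intervalIntegral.integral_const_mul, ← hf.eq]
  ring

lemma zero : Prim (fun _ => 0) (fun _ => 0) :=
  ⟨fun a b => intervalIntegrable_const, fun a b => by simp⟩

lemma sum {ι : Type*} (S : Finset ι) (F F' : ι → ℝ → ℝ) (h : ∀ i ∈ S, Prim (F i) (F' i)) :
    Prim (fun x => ∑ i ∈ S, F i x) (fun x => ∑ i ∈ S, F' i x) := by
  classical
  induction S using Finset.induction_on with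
  | empty => simpa using zero
  | insert a S ha ih =>
    simp only [Finset.sum_insert ha]
    exact (h a (Finset.mem_insert_self _ _)).add
      (ih fun i hi => h i (Finset.mem_insert_of_mem hi))

lemma of_deriv (hf : ∀ x, HasDerivAt f (f' x) x) (hc : Continuous f') : Prim f f' :=
  ⟨fun a b => hc.intervalIntegrable a b, fun a b =>
    (intervalIntegral.integral_eq_sub_of_hasDerivAt (fun x _ => hf x)
      (hc.intervalIntegrable a b)).symm⟩

lemma congr (hf : Prim f f') {f'' : ℝ → ℝ} (h : ∀ x, f' x = f'' x) : Prim f f'' := by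
  have : f' = f'' := funext h
  rwa [← this]

/-- The fundamental theorem on the line. -/
lemma integral_eq_zero (hf : Prim f f') (hi : Integrable f') (hb : Tendsto f atBot (𝓝 0))
    (ht : Tendsto f atTop (𝓝 0)) : ∫ x, f' x = 0 := by
  have h1 : Tendsto (fun n : ℝ => ∫ x in (-n)..n, f' x) atTop (𝓝 (∫ x, f' x)) :=
    intervalIntegral_tendsto_integral hi tendsto_neg_atTop_atBot tendsto_id
  have h2 : Tendsto (fun n : ℝ => f n - f (-n)) atTop (𝓝 (0 - 0)) :=
    ht.sub (hb.comp tendsto_neg_atTop_atBot)
  simp only [hf.eq] at h2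
  rw [sub_zero] at h2
  exact tendsto_nhds_unique h1 h2

/-- Decay at infinity. -/
lemma tendsto_top (hf : Prim f f') (hi : Integrable f') (h : Integrable f) :
    Tendsto f atTop (𝓝 0) := by
  have h1 : Tendsto (fun x => f 0 + ∫ t in (0:ℝ)..x, f' t) atTop
      (𝓝 (f 0 + ∫ t in Ioi 0, f' t)) :=
    (intervalIntegral_tendsto_integral_Ioi 0 hi.integrableOn tendsto_id).const_add _
  rw [← hf.form 0] at h1
  have h2 : f 0 + ∫ t in Ioi 0, f' t = 0 := by
    by_contra hne
    set L := f 0 + ∫ t in Ioi 0, f' t with hL
    -- `|f| ≥ |L| / 2` for large arguments contradicts integrability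
    have h3 : ∀ᶠ x in atTop, |L| / 2 < |f x| :=
      (h1.abs).eventually (lt_mem_nhds (by linarith [abs_pos.2 hne]))
    obtain ⟨M, hM⟩ := eventually_atTop.1 h3
    have h4 : IntegrableOn (fun _ : ℝ => |L| / 2) (Ici M) := by
      refine (h.abs.integrableOn (s := Ici M)).mono' aestronglyMeasurable_const ?_
      refine (ae_restrict_iff' measurableSet_Ici).2 (Eventually.of_forall fun x hx => ?_)
      rw [Real.norm_eq_abs, abs_of_nonneg (by positivity)]
      exact (hM x hx).le
    rw [integrableOn_const_iff (by simp)] at h4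
    rcases h4 with h4 | h4
    · have : 0 < |L| := abs_pos.2 hne
      rw [enorm_eq_zero] at h4
      linarith
    · simp at h4
  rwa [h2] at h1

lemma comp_neg (hf : Prim f f') : Prim (fun x => f (-x)) (fun x => - f' (-x)) := by
  refine ⟨fun a b => ?_, fun a b => ?_⟩
  · have h := ((hf.ii (-a) (-b)).comp_mul_left (c := -1))
    have h' : IntervalIntegrable (fun x => f' (-x)) volume a b := by simpa using h
    exact h'.neg
  · rw [intervalIntegral.integral_neg, intervalIntegral.integral_comp_neg, ← hf.eq]
    ring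

lemma tendsto_bot (hf : Prim f f') (hi : Integrable f') (h : Integrable f) :
    Tendsto f atBot (𝓝 0) := by
  have h1 := hf.comp_neg.tendsto_top hi.comp_neg.neg h.comp_neg
  have h2 := h1.comp tendsto_neg_atBot_atTop
  refine h2.congr fun x => ?_
  simp

/-- A function with integrable derivative and limit zero is bounded. -/
lemma bounded (hf : Prim f f') (hi : Integrable f') (h : Integrable f) (x : ℝ) :
    |f x| ≤ ∫ x, |f' x| := by
  have h1 : Tendsto (fun n : ℝ => |f x - f n|) atBot (𝓝 |f x - 0|) :=
    ((hf.tendsto_bot hi h).const_sub _).abs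
  rw [sub_zero] at h1
  refine le_of_tendsto h1 ((eventually_le_atBot x).mono fun n hn => ?_)
  rw [hf.eq]
  rw [intervalIntegral.integral_of_le hn]
  refine (abs_integral_le_integral_abs).trans ?_
  exact setIntegral_le_integral hi.abs (Eventually.of_forall fun y => abs_nonneg _)

end Prim

end Pool.Agent.Q93.LT
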