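import Pool.Agent.Q93.LT.Alg
import Pool.Agent.Q93.LT.Prim
import Pool.Agent.Helper490.CalibMain

set_option autoImplicit false

open MeasureTheory Set Filter Topology Real
open scoped RealInnerProductSpace

namespace Pool.Agent.Q93.LT

open Pool.Helper490.Calib

variable {E : Type*} [NormedAddCommGroup E] [InnerProductSpace ℝ E] [FiniteDimensional ℝ E]

/-- A vector valued function of the Sobolev space with weak derivative `g`, whose Gram operator is
at most the identity. -/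
structure HSys (u g : ℝ → E) : Prop where
  hu2 : MemLp u 2
  hg2 : MemLp g 2
  hug : ∀ a b, u b - u a = ∫ x in a..b, g x
  hbes : ∀ v : E, ∫ x, ⟪u x, v⟫ ^ 2 ≤ ‖v‖ ^ 2

namespace HSys

variable {u g : ℝ → E} (h : HSys u g)
include h

omit [FiniteDimensional ℝ E] in
lemma gii (a b : ℝ) : IntervalIntegrable g volume a b := by
  have h1 : LocallyIntegrable g volume := h.hg2.locallyIntegrable (by norm_num)
  exact intervalIntegrable_iff.2 ((h1.integrableOn_isCompact isCompact_uIcc).mono_set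
    uIoc_subset_uIcc)

lemma uc : Continuous u := by
  have : u = fun x => u 0 + ∫ t in (0:ℝ)..x, g t := by
    funext x; rw [← h.hug 0 x]; abel
  rw [this]
  exact continuous_const.add (intervalIntegral.continuous_primitive h.gii 0)

omit [FiniteDimensional ℝ E] in
lemma ui : Integrable (fun x => ‖u x‖ ^ 2) := h.hu2.integrable_norm_pow (by norm_num)

omit [FiniteDimensional ℝ E] in
lemma gi : Integrable (fun x => ‖g x‖ ^ 2) := h.hg2.integrable_norm_pow (by norm_num)

lemma prim_inner (v : E) : Prim (fun x => ⟪v, u x⟫) (fun x => ⟪v, g x⟫) := by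
  refine ⟨fun a b => ?_, fun a b => ?_⟩
  · exact ⟨(innerSL ℝ v).integrable_comp (h.gii a b).1, (innerSL ℝ v).integrable_comp (h.gii a b).2⟩
  · have := (innerSL ℝ v).intervalIntegral_comp_comm (h.gii a b)
    simp only [innerSL_apply_apply] at this
    rw [this, ← h.hug, inner_sub_right]

lemma Rc : Continuous (R u) := by
  have h1 : Continuous fun x => innerSL ℝ (u x) := (innerSL ℝ).continuous.comp h.uc
  have h2 := (ContinuousLinearMap.smulRightL ℝ E E).continuous.comp h1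
  exact h2.clm_apply h.uc

lemma Ri : Integrable (R u) := by
  refine h.ui.mono h.Rc.aestronglyMeasurable (Eventually.of_forall fun x => ?_)
  rw [R_norm, Real.norm_eq_abs, abs_of_nonneg (sq_nonneg _)]

lemma Gam_deriv (x : ℝ) : HasDerivAt (Gam u) (R u x) x := by
  have hform : Gam u = fun x => Gam u 0 + ∫ t in (0:ℝ)..x, R u t := by
    funext x
    have := intervalIntegral.integral_Iic_sub_Iic (f := R u) (a := 0) (b := x) (μ := volume)
      h.Ri.integrableOn h.Ri.integrableOn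
    simp only [Gam]
    rw [← this]
    abel
  rw [hform]
  exact (intervalIntegral.integral_hasDerivAt_right h.Ri.intervalIntegrable
    (h.Ri.aestronglyMeasurable.stronglyMeasurableAtFilter) h.Rc.continuousAt).const_add _

lemma Bop_deriv (x : ℝ) : HasDerivAt (Bop u) (R u x) x := (h.Gam_deriv x).sub_const _

lemma Bop_cont : Continuous (Bop u) :=
  continuous_iff_continuousAt.2 fun x => (h.Bop_deriv x).continuousAt

lemma Gam_inner (x : ℝ) (v w : E) :
    ⟪Gam u x v, w⟫ = ∫ y in Iic x, ⟪u y, v⟫ * ⟪u y, w⟫ := by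
  have h1 : Gam u x v = ∫ y in Iic x, R u y v :=
    ContinuousLinearMap.integral_apply h.Ri.integrableOn v
  have h2 : IntegrableOn (fun y => R u y v) (Iic x) := by
    have := h.Ri.integrableOn (s := Iic x)
    exact this.apply_continuousLinearMap v
  rw [h1, real_inner_comm, ← integral_inner h2 w]
  refine integral_congr_ae (Eventually.of_forall fun y => ?_)
  simp only [Pool.Helper490.Calib.R_apply, real_inner_smul_right]
  rw [real_inner_comm w (u y)]

lemma int_sq (v : E) : Integrable (fun y => ⟪u y, v⟫ ^ 2) := by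
  have hc : Continuous fun y => ⟪u y, v⟫ ^ 2 := (h.uc.inner continuous_const).pow 2
  refine (h.ui.mul_const (‖v‖ ^ 2)).mono' hc.aestronglyMeasurable
    (Eventually.of_forall fun y => ?_)
  rw [Real.norm_eq_abs, abs_of_nonneg (sq_nonneg _), ← mul_pow, ← sq_abs]
  exact pow_le_pow_left₀ (abs_nonneg _) (abs_real_inner_le_norm _ _) 2

lemma Gam_nonneg (x : ℝ) (v : E) : 0 ≤ ⟪Gam u x v, v⟫ := by
  rw [h.Gam_inner]
  exact setIntegral_nonneg measurableSet_Iic fun y _ => mul_self_nonneg _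

lemma Gam_le (x : ℝ) (v : E) : ⟪Gam u x v, v⟫ ≤ ‖v‖ ^ 2 := by
  rw [h.Gam_inner]
  refine le_trans ?_ (h.hbes v)
  have : ∀ y, ⟪u y, v⟫ * ⟪u y, v⟫ = ⟪u y, v⟫ ^ 2 := fun y => (pow_two _).symm
  simp only [this]
  exact setIntegral_le_integral (h.int_sq v) (Eventually.of_forall fun y => sq_nonneg _)

lemma Bop_inner (x : ℝ) (v w : E) : ⟪Bop u x v, w⟫ = ⟪Gam u x v, w⟫ - 1 / 2 * ⟪v, w⟫ := by
  simp only [Bop, ContinuousLinearMap.sub_apply, ContinuousLinearMap.smul_apply,
    ContinuousLinearMap.one_apply, inner_sub_left, real_inner_smul_left]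

lemma Gam_symm (x : ℝ) (v w : E) : ⟪Gam u x v, w⟫ = ⟪v, Gam u x w⟫ := by
  rw [real_inner_comm (Gam u x w) v, h.Gam_inner, h.Gam_inner]
  congr 1
  funext y
  ring

lemma Bop_symm (x : ℝ) (v w : E) : ⟪Bop u x v, w⟫ = ⟪v, Bop u x w⟫ := by
  rw [real_inner_comm (Bop u x w) v, h.Bop_inner, h.Bop_inner, h.Gam_inner, h.Gam_inner,
    real_inner_comm w v]
  congr 2
  funext y
  ring

lemma Bop_pow_symm (x : ℝ) (a : ℕ) (v w : E) :
    ⟪(Bop u x ^ a) v, w⟫ = ⟪v, (Bop u x ^ a) w⟫ := by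
  induction a generalizing v w with
  | zero => simp
  | succ a ih =>
    rw [pow_succ, mul_apply_eq_comp, ih, h.Bop_symm, ← mul_apply_eq_comp,
      ← pow_succ', pow_succ]

lemma Bop_pow_deriv (x : ℝ) (a : ℕ) : HasDerivAt (fun x => Bop u x ^ a)
    (∑ l ∈ Finset.range a, Bop u x ^ l * R u x * Bop u x ^ (a - 1 - l)) x := by
  induction a with
  | zero => simpa using hasDerivAt_const x (1 : E →L[ℝ] E)
  | succ a ih =>
    have h1 := ih.mul (h.Bop_deriv x)
    have h2 : (fun x => Bop u x ^ (a + 1)) = fun x => Bop u x ^ a * Bop u x := by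
      funext x; rw [pow_succ]
    rw [h2]
    refine h1.congr_deriv ?_
    rw [Finset.sum_range_succ, Finset.sum_mul, Nat.add_sub_cancel, Nat.sub_self, pow_zero, mul_one]
    congr 1
    refine Finset.sum_congr rfl fun l hl => ?_
    have hl' : l < a := Finset.mem_range.1 hl
    rw [mul_assoc, ← pow_succ]
    congr 2
    omega

/-- The entries of the powers. -/
lemma entry_prim (a : ℕ) (v w : E) : Prim (fun x => ⟪v, (Bop u x ^ a) w⟫)
    (fun x => ∑ l ∈ Finset.range a, ⟪v, (Bop u x ^ l) (u x)⟫ *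
      ⟪u x, (Bop u x ^ (a - 1 - l)) w⟫) := by
  refine Prim.of_deriv (fun x => ?_) ?_
  · have h1 : HasDerivAt (fun x => (Bop u x ^ a) w)
        ((∑ l ∈ Finset.range a, Bop u x ^ l * R u x * Bop u x ^ (a - 1 - l)) w) x := by
      have := (h.Bop_pow_deriv x a).clm_apply (hasDerivAt_const x w)
      simpa using this
    have h2 := (hasDerivAt_const x v).inner ℝ h1
    refine h2.congr_deriv ?_
    rw [inner_zero_left, add_zero, ContinuousLinearMap.sum_apply, inner_sum]
    refine Finset.sum_congr rfl fun l _ => ?_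
    rw [mul_apply_eq_comp, mul_apply_eq_comp, Pool.Helper490.Calib.R_apply, map_smul, real_inner_smul_right]
    ring
  · refine continuous_finset_sum _ fun l _ => ?_
    refine (continuous_const.inner ((h.Bop_cont.pow l).clm_apply h.uc)).mul ?_
    exact h.uc.inner ((h.Bop_cont.pow _).clm_apply continuous_const)

omit h [FiniteDimensional ℝ E] in
lemma bil {n : ℕ} (b : OrthonormalBasis (Fin n) ℝ E) (T : E →L[ℝ] E) (v w : E) :
    ∑ i, ∑ j, ⟪b i, v⟫ * (⟪b i, T (b j)⟫ * ⟪b j, w⟫) = ⟪v, T w⟫ := by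
  have h1 : T w = ∑ j, ⟪b j, w⟫ • T (b j) := by
    conv_lhs => rw [← b.sum_repr' w]
    rw [map_sum]
    exact Finset.sum_congr rfl fun j _ => by rw [map_smul]
  rw [← b.sum_inner_mul_inner v (T w)]
  refine Finset.sum_congr rfl fun i _ => ?_
  rw [real_inner_comm v (b i), h1, inner_sum, Finset.mul_sum]
  refine Finset.sum_congr rfl fun j _ => ?_
  rw [real_inner_smul_right]
  ring

lemma mo_prim (a : ℕ) : Prim (mo u a)
    (fun x => 2 * mu u g a x + ∑ l ∈ Finset.range a, mo u l x * mo u (a - 1 - l) x) := by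
  set n := Module.finrank ℝ E with hn
  set b := stdOrthonormalBasis ℝ E with hb
  have h1 : Prim (fun x => ∑ i, ∑ j, ⟪b i, u x⟫ * (⟪b i, (Bop u x ^ a) (b j)⟫ * ⟪b j, u x⟫))
      (fun x => ∑ i, ∑ j, (⟪b i, g x⟫ * (⟪b i, (Bop u x ^ a) (b j)⟫ * ⟪b j, u x⟫) +
        ⟪b i, u x⟫ * ((∑ l ∈ Finset.range a, ⟪b i, (Bop u x ^ l) (u x)⟫ *
          ⟪u x, (Bop u x ^ (a - 1 - l)) (b j)⟫) * ⟪b j, u x⟫ +
          ⟪b i, (Bop u x ^ a) (b j)⟫ * ⟪b j, g x⟫))) :=
    Prim.sum _ _ _ fun i _ => Prim.sum _ _ _ fun j _ =>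
      (h.prim_inner (b i)).mul ((h.entry_prim a (b i) (b j)).mul (h.prim_inner (b j)))
  have h2 : (fun x => ∑ i, ∑ j, ⟪b i, u x⟫ * (⟪b i, (Bop u x ^ a) (b j)⟫ * ⟪b j, u x⟫)) =
      mo u a := by
    funext x
    rw [bil b (Bop u x ^ a) (u x) (u x), mo]
  rw [h2] at h1
  refine h1.congr fun x => ?_
  simp only [mul_add, Finset.sum_add_distrib]
  rw [bil b (Bop u x ^ a) (g x) (u x), bil b (Bop u x ^ a) (u x) (g x), ← h.Bop_pow_symm x a (u x),
    real_inner_comm (g x)]
  have h3 : ∑ i, ∑ j, ⟪b i, u x⟫ * ((∑ l ∈ Finset.range a, ⟪b i, (Bop u x ^ l) (u x)⟫ *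
          ⟪u x, (Bop u x ^ (a - 1 - l)) (b j)⟫) * ⟪b j, u x⟫) =
      ∑ l ∈ Finset.range a, mo u l x * mo u (a - 1 - l) x := by
    have e1 : ∀ l, mo u l x * mo u (a - 1 - l) x =
        ∑ i, ∑ j, ⟪b i, u x⟫ * ((⟪b i, (Bop u x ^ l) (u x)⟫ *
          ⟪u x, (Bop u x ^ (a - 1 - l)) (b j)⟫) * ⟪b j, u x⟫) := by
      intro l
      have e2 : mo u l x = ∑ i, ⟪b i, u x⟫ * ⟪b i, (Bop u x ^ l) (u x)⟫ := by
        rw [mo, ← b.sum_inner_mul_inner]
        exact Finset.sum_congr rfl fun i _ => by rw [real_inner_comm]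
      have e3 : mo u (a - 1 - l) x = ∑ j, ⟪u x, (Bop u x ^ (a - 1 - l)) (b j)⟫ * ⟪b j, u x⟫ := by
        rw [mo, ← h.Bop_pow_symm, ← b.sum_inner_mul_inner]
        exact Finset.sum_congr rfl fun j _ => by rw [h.Bop_pow_symm]
      rw [e2, e3, Finset.sum_mul_sum]
      refine Finset.sum_congr rfl fun i _ => Finset.sum_congr rfl fun j _ => ?_
      ring
    have e4 : ∑ l ∈ Finset.range a, mo u l x * mo u (a - 1 - l) x =
        ∑ i, ∑ j, ∑ l ∈ Finset.range a, ⟪b i, u x⟫ * ((⟪b i, (Bop u x ^ l) (u x)⟫ *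
          ⟪u x, (Bop u x ^ (a - 1 - l)) (b j)⟫) * ⟪b j, u x⟫) := by
      rw [Finset.sum_congr rfl fun l _ => e1 l, Finset.sum_comm]
      exact Finset.sum_congr rfl fun i _ => Finset.sum_comm
    rw [e4]
    refine Finset.sum_congr rfl fun i _ => Finset.sum_congr rfl fun j _ => ?_
    rw [Finset.sum_mul, Finset.mul_sum]
  rw [h3]
  simp only [mu]
  ring

lemma mo_cont (a : ℕ) : Continuous (mo u a) := (h.mo_prim a).cont

end HSys

end Pool.Agent.Q93.LT
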