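import Pool.Agent.Q93.LT.Cal

set_option autoImplicit false

open MeasureTheory Set Filter Topology Real
open scoped RealInnerProductSpace

namespace Pool.Agent.Q93.LT

open Pool.Helper490.Calib

variable {E : Type*} [NormedAddCommGroup E] [InnerProductSpace ℝ E] [FiniteDimensional ℝ E]

/-- The calibrating vector field. -/
noncomputable def VF {ι : Type*} (S : Finset ι) (w : ι → ℝ) (α β : ι → ℕ) (κ : ℝ) (u : ℝ → E)
    (x : ℝ) : E :=
  ∑ q ∈ S, (2 * κ * w q * mo u (β q) x) • (Bop u x ^ α q) (u x)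

/-- The remainder density. -/
noncomputable def Rem (u : ℝ → E) (x : ℝ) : ℝ := mo u 0 x * mo u 2 x - mo u 1 x ^ 2

namespace HSys

variable {u g : ℝ → E} (h : HSys u g)
include h

/-- Coordinates in an eigenbasis. -/
lemma coords (x : ℝ) (y : E) : ∃ (n : ℕ) (e c d : Fin n → ℝ),
    (∀ i, e i ∈ Icc (-(1 / 2) : ℝ) (1 / 2)) ∧
    (∀ a, mo u a x = ∑ i, e i ^ a * c i ^ 2) ∧
    (∀ a, ⟪y, (Bop u x ^ a) (u x)⟫ = ∑ i, e i ^ a * (c i * d i)) ∧
    ∑ i, d i ^ 2 = ‖y‖ ^ 2 ∧ ∑ i, c i ^ 2 = ‖u x‖ ^ 2 ∧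
    (∀ {ι : Type} (S : Finset ι) (w : ι → ℝ) (α β : ι → ℕ) (κ : ℝ),
      ‖y - VF S w α β κ u x‖ ^ 2 =
        ∑ i, (d i - c i * (2 * κ * ∑ j, P S w α β (e i) (e j) * c j ^ 2)) ^ 2) := by
  have hT : ((Bop u x : E →L[ℝ] E) : E →ₗ[ℝ] E).IsSymmetric := fun v w => h.Bop_symm x v w
  set n := Module.finrank ℝ E with hn
  set b := hT.eigenvectorBasis hn.symm with hb
  set e := hT.eigenvalues hn.symm with he
  have hbe : ∀ i, Bop u x (b i) = e i • b i := fun i => hT.apply_eigenvectorBasis hn.symm i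
  have hpow : ∀ i a, (Bop u x ^ a) (b i) = e i ^ a • b i := by
    intro i a
    induction a with
    | zero => simp
    | succ a ih =>
      rw [pow_succ, mul_apply_eq_comp, hbe, map_smul, ih, smul_smul, pow_succ, mul_comm]
  have hcoef : ∀ i a, ⟪b i, (Bop u x ^ a) (u x)⟫ = e i ^ a * ⟪b i, u x⟫ := by
    intro i a
    rw [← h.Bop_pow_symm, hpow, real_inner_smul_left]
  have hexp : ∀ v w : E, ⟪v, w⟫ = ∑ i, ⟪b i, v⟫ * ⟪b i, w⟫ := by
    intro v w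
    rw [← b.sum_inner_mul_inner v w]
    refine Finset.sum_congr rfl fun i _ => ?_
    rw [real_inner_comm v (b i)]
  have hmo : ∀ a, mo u a x = ∑ i, e i ^ a * ⟪b i, u x⟫ ^ 2 := by
    intro a
    rw [mo, hexp]
    refine Finset.sum_congr rfl fun i _ => ?_
    rw [hcoef]
    ring
  refine ⟨n, e, fun i => ⟪b i, u x⟫, fun i => ⟪b i, y⟫, ?_, hmo, ?_, ?_, ?_, ?_⟩
  · intro i
    have hb1 : ‖b i‖ = 1 := b.orthonormal.1 i
    have h1 := h.Gam_nonneg x (b i)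
    have h2 := h.Gam_le x (b i)
    have h3 := h.Bop_inner x (b i) (b i)
    rw [hbe, real_inner_smul_left, real_inner_self_eq_norm_sq, hb1] at h3
    rw [hb1] at h2
    constructor <;> nlinarith
  · intro a
    rw [hexp]
    refine Finset.sum_congr rfl fun i _ => ?_
    rw [hcoef]
    ring
  · rw [← real_inner_self_eq_norm_sq, hexp]
    exact Finset.sum_congr rfl fun i _ => pow_two _
  · rw [← real_inner_self_eq_norm_sq, hexp]
    exact Finset.sum_congr rfl fun i _ => pow_two _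
  · intro ι S w α β κ
    rw [← real_inner_self_eq_norm_sq, hexp]
    refine Finset.sum_congr rfl fun i _ => ?_
    rw [← pow_two, inner_sub_right]
    congr 2
    rw [VF, inner_sum]
    have e1 : ∀ q, ⟪b i, (2 * κ * w q * mo u (β q) x) • (Bop u x ^ α q) (u x)⟫ =
        ∑ j, ⟪b i, u x⟫ * (2 * κ * (w q * (e i ^ α q * e j ^ β q) * ⟪b j, u x⟫ ^ 2)) := by
      intro q
      rw [real_inner_smul_right, hcoef, hmo, ← Finset.mul_sum, ← Finset.mul_sum]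
      have e2 : ∑ j, w q * (e i ^ α q * e j ^ β q) * ⟪b j, u x⟫ ^ 2 =
          w q * e i ^ α q * ∑ j, e j ^ β q * ⟪b j, u x⟫ ^ 2 := by
        rw [Finset.mul_sum]
        exact Finset.sum_congr rfl fun j _ => by ring
      rw [e2]
      ring
    simp only [e1]
    rw [Finset.sum_comm, Finset.mul_sum, Finset.mul_sum]
    refine Finset.sum_congr rfl fun j _ => ?_
    simp only [P]
    rw [Finset.sum_mul, Finset.mul_sum, Finset.mul_sum]

lemma mo_bound (x : ℝ) (a : ℕ) : |mo u a x| ≤ ‖u x‖ ^ 2 := by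
  obtain ⟨n, e, c, d, he, hmo, -, -, hc, -⟩ := h.coords x 0
  rw [hmo, ← hc]
  refine (Finset.abs_sum_le_sum_abs _ _).trans (Finset.sum_le_sum fun i _ => ?_)
  have h1 : |e i| ≤ 1 := abs_le.2 ⟨by linarith [(he i).1], by linarith [(he i).2]⟩
  have h2 : |e i| ^ a ≤ 1 := pow_le_one₀ (abs_nonneg _) h1
  rw [abs_mul, abs_pow, abs_of_nonneg (sq_nonneg (c i))]
  calc |e i| ^ a * c i ^ 2 ≤ 1 * c i ^ 2 := mul_le_mul_of_nonneg_right h2 (sq_nonneg _)
    _ = c i ^ 2 := one_mul _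

lemma mu_bound (x : ℝ) (a : ℕ) : |2 * mu u g a x| ≤ ‖u x‖ ^ 2 + ‖g x‖ ^ 2 := by
  obtain ⟨n, e, c, d, he, -, hmu, hd, hc, -⟩ := h.coords x (g x)
  rw [mu, hmu, ← hc, ← hd, Finset.mul_sum, ← Finset.sum_add_distrib]
  refine (Finset.abs_sum_le_sum_abs _ _).trans (Finset.sum_le_sum fun i _ => ?_)
  have h1 : |e i| ≤ 1 := abs_le.2 ⟨by linarith [(he i).1], by linarith [(he i).2]⟩
  have h2 : |e i| ^ a ≤ 1 := pow_le_one₀ (abs_nonneg _) h1
  have h3 : |2 * (e i ^ a * (c i * d i))| = |e i| ^ a * (2 * (|c i| * |d i|)) := by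
    rw [abs_mul, abs_mul, abs_pow, abs_mul, abs_two]; ring
  rw [h3]
  calc |e i| ^ a * (2 * (|c i| * |d i|)) ≤ 1 * (2 * (|c i| * |d i|)) :=
        mul_le_mul_of_nonneg_right h2 (by positivity)
    _ ≤ c i ^ 2 + d i ^ 2 := by
      nlinarith [sq_nonneg (|c i| - |d i|), sq_abs (c i), sq_abs (d i)]

lemma pow_norm (x : ℝ) (a : ℕ) : ‖(Bop u x ^ a) (u x)‖ ≤ ‖u x‖ := by
  have h1 : ‖(Bop u x ^ a) (u x)‖ ^ 2 = mo u (a + a) x := by
    rw [← real_inner_self_eq_norm_sq, h.Bop_pow_symm, mo, pow_add, mul_apply_eq_comp]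
  have h2 := (le_abs_self _).trans (h.mo_bound x (a + a))
  rw [← h1] at h2
  exact abs_le_of_sq_le_sq' h2 (norm_nonneg _) |>.2

lemma mo_zero (x : ℝ) : mo u 0 x = ‖u x‖ ^ 2 := by
  rw [mo, pow_zero, ContinuousLinearMap.one_apply, real_inner_self_eq_norm_sq]

lemma rho_prim : Prim (fun x => ‖u x‖ ^ 2) (fun x => 2 * mu u g 0 x) := by
  have h1 := h.mo_prim 0
  have h2 : mo u 0 = fun x => ‖u x‖ ^ 2 := funext fun x => h.mo_zero x
  rw [h2] at h1
  simpa using h1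

lemma mu_meas (a : ℕ) : AEStronglyMeasurable (fun x => mu u g a x) volume := by
  have h1 : Continuous fun x => (Bop u x ^ a) (u x) := (h.Bop_cont.pow a).clm_apply h.uc
  exact h.hg2.1.inner h1.aestronglyMeasurable

lemma mu_int (a : ℕ) : Integrable (fun x => 2 * mu u g a x) := by
  refine (h.ui.add h.gi).mono' ((h.mu_meas a).const_mul 2) (Eventually.of_forall fun x => ?_)
  rw [Real.norm_eq_abs]
  exact h.mu_bound x a

lemma rho_top : Tendsto (fun x => ‖u x‖ ^ 2) atTop (𝓝 0) :=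
  h.rho_prim.tendsto_top (h.mu_int 0) h.ui

lemma rho_bot : Tendsto (fun x => ‖u x‖ ^ 2) atBot (𝓝 0) :=
  h.rho_prim.tendsto_bot (h.mu_int 0) h.ui

lemma rho_bdd : ∃ M, 0 ≤ M ∧ ∀ x, ‖u x‖ ^ 2 ≤ M :=
  ⟨∫ x, |2 * mu u g 0 x|, integral_nonneg fun x => abs_nonneg _, fun x =>
    (le_abs_self _).trans (h.rho_prim.bounded (h.mu_int 0) h.ui x)⟩

lemma rho3_int : Integrable (fun x => (‖u x‖ ^ 2) ^ 3) := by
  obtain ⟨M, hM0, hM⟩ := h.rho_bdd
  have hc : Continuous fun x => (‖u x‖ ^ 2) ^ 3 := (h.uc.norm.pow 2).pow 3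
  refine (h.ui.const_mul (M ^ 2)).mono' hc.aestronglyMeasurable (Eventually.of_forall fun x => ?_)
  have h0 : 0 ≤ ‖u x‖ ^ 2 := sq_nonneg _
  rw [Real.norm_eq_abs, abs_of_nonneg (by positivity)]
  calc (‖u x‖ ^ 2) ^ 3 = (‖u x‖ ^ 2) ^ 2 * ‖u x‖ ^ 2 := by ring
    _ ≤ M ^ 2 * ‖u x‖ ^ 2 :=
      mul_le_mul_of_nonneg_right (pow_le_pow_left₀ h0 (hM x) 2) h0

lemma Rem_cont : Continuous (Rem u) :=
  ((h.mo_cont 0).mul (h.mo_cont 2)).sub ((h.mo_cont 1).pow 2)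

lemma Rem_nonneg (x : ℝ) : 0 ≤ Rem u x := by
  obtain ⟨n, e, c, d, he, hmo, -, -, hc, -⟩ := h.coords x 0
  rw [Rem, hmo, hmo, hmo]
  have h1 := Finset.sum_mul_sq_le_sq_mul_sq Finset.univ (fun i => c i) (fun i => e i * c i)
  have e1 : ∑ i, c i * (e i * c i) = ∑ i, e i ^ 1 * c i ^ 2 :=
    Finset.sum_congr rfl fun i _ => by ring
  have e2 : ∑ i, (e i * c i) ^ 2 = ∑ i, e i ^ 2 * c i ^ 2 :=
    Finset.sum_congr rfl fun i _ => by ring
  have e3 : ∑ i, c i ^ 2 = ∑ i, e i ^ 0 * c i ^ 2 :=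
    Finset.sum_congr rfl fun i _ => by ring
  rw [e1, e2, e3] at h1
  linarith

lemma Rem_le (x : ℝ) : Rem u x ≤ (‖u x‖ ^ 2) ^ 2 := by
  have h1 := h.mo_bound x 2
  have h2 : 0 ≤ ‖u x‖ ^ 2 := sq_nonneg _
  rw [Rem, h.mo_zero]
  have h3 := (le_abs_self _).trans h1
  nlinarith [sq_nonneg (mo u 1 x), mul_le_mul_of_nonneg_left h3 h2]

lemma rem_int : Integrable (fun x => ‖u x‖ ^ 2 * Rem u x) := by
  have hc : Continuous fun x => ‖u x‖ ^ 2 * Rem u x := (h.uc.norm.pow 2).mul h.Rem_cont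
  refine h.rho3_int.mono' hc.aestronglyMeasurable (Eventually.of_forall fun x => ?_)
  have h2 : 0 ≤ ‖u x‖ ^ 2 := sq_nonneg _
  rw [Real.norm_eq_abs, abs_of_nonneg (mul_nonneg h2 (h.Rem_nonneg x))]
  calc ‖u x‖ ^ 2 * Rem u x ≤ ‖u x‖ ^ 2 * (‖u x‖ ^ 2) ^ 2 :=
        mul_le_mul_of_nonneg_left (h.Rem_le x) h2
    _ = _ := by ring

section kernel

variable {ι : Type} (S : Finset ι) (w : ι → ℝ) (α β : ι → ℕ) (κ : ℝ)

lemma VF_cont : Continuous (VF S w α β κ u) := by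
  unfold VF
  refine continuous_finsetSum _ fun q _ => ?_
  exact (continuous_const.mul (h.mo_cont _)).smul ((h.Bop_cont.pow _).clm_apply h.uc)

lemma VF_sq_int : Integrable (fun x => ‖g x - VF S w α β κ u x‖ ^ 2) := by
  obtain ⟨M, hM0, hM⟩ := h.rho_bdd
  have hb : ∀ x, ‖VF S w α β κ u x‖ ≤ (∑ q ∈ S, |2 * κ * w q| * M) * ‖u x‖ := by
    intro x
    rw [VF, Finset.sum_mul]
    refine (norm_sum_le _ _).trans (Finset.sum_le_sum fun q _ => ?_)
    rw [norm_smul, Real.norm_eq_abs, abs_mul]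
    refine mul_le_mul ?_ (h.pow_norm x _) (norm_nonneg _) (by positivity)
    exact mul_le_mul_of_nonneg_left ((h.mo_bound x _).trans (hM x)) (abs_nonneg _)
  have hV2 : MemLp (VF S w α β κ u) 2 := by
    refine h.hu2.of_le_mul (c := ∑ q ∈ S, |2 * κ * w q| * M)
      (h.VF_cont S w α β κ).aestronglyMeasurable (Eventually.of_forall hb)
  exact (h.hg2.sub hV2).integrable_norm_pow (by norm_num)

/-- The calibration argument for a polynomial kernel. -/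
theorem calibrated' (c0 c1 : ℝ)
    (hsym : ∀ s t, P S w α β s t = P S w α β t s)
    (hK : ∀ s ∈ Icc (-(1 / 2) : ℝ) (1 / 2), ∀ r ∈ Icc (-(1 / 2) : ℝ) (1 / 2),
        ∀ t ∈ Icc (-(1 / 2) : ℝ) (1 / 2),
      4 * κ ^ 2 * (P S w α β t s * P S w α β t r) + κ * D S w α β s r t + c0 +
        c1 * (s - r) ^ 2 ≤ 0) :
    c0 * (∫ x, (‖u x‖ ^ 2) ^ 3) + 2 * c1 * (∫ x, ‖u x‖ ^ 2 * Rem u x) +
      (∫ x, ‖g x - VF S w α β κ u x‖ ^ 2) ≤ ∫ x, ‖g x‖ ^ 2 := by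
  obtain ⟨M, hM0, hM⟩ := h.rho_bdd
  set Dm : ℕ → ℝ → ℝ := fun a x =>
    2 * mu u g a x + ∑ l ∈ Finset.range a, mo u l x * mo u (a - 1 - l) x with hDm
  set Φ : ℝ → ℝ := fun x => κ * ∑ q ∈ S, w q * (mo u (α q) x * mo u (β q) x) with hΦ
  set Φ' : ℝ → ℝ := fun x => κ * ∑ q ∈ S, w q *
    (Dm (α q) x * mo u (β q) x + mo u (α q) x * Dm (β q) x) with hΦ'
  have hΦd : Prim Φ Φ' :=
    Prim.const_mul κ (Prim.sum _ _ _ fun q _ =>
      Prim.const_mul (w q) ((h.mo_prim (α q)).mul (h.mo_prim (β q))))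
  have hDmc : ∀ a, AEStronglyMeasurable (Dm a) volume := fun a =>
    ((h.mu_meas a).const_mul 2).add
      (continuous_finsetSum _ fun l _ => (h.mo_cont l).mul (h.mo_cont _)).aestronglyMeasurable
  have hmm : ∀ a, AEStronglyMeasurable (mo u a) volume := fun a =>
    (h.mo_cont a).aestronglyMeasurable
  have hΦ'c : AEStronglyMeasurable Φ' volume := by
    refine AEStronglyMeasurable.const_mul ?_ κ
    refine Finset.aestronglyMeasurable_fun_sum _ fun q _ => ?_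
    exact (((hDmc _).mul (hmm _)).add ((hmm _).mul (hDmc _))).const_mul _
  -- bounds
  have hDmb : ∀ a x, |Dm a x| ≤ (‖u x‖ ^ 2 + ‖g x‖ ^ 2) + a * (M * ‖u x‖ ^ 2) := by
    intro a x
    refine (abs_add_le _ _).trans (add_le_add (h.mu_bound x a) ?_)
    refine (Finset.abs_sum_le_sum_abs _ _).trans ?_
    have : ∀ l ∈ Finset.range a, |mo u l x * mo u (a - 1 - l) x| ≤ M * ‖u x‖ ^ 2 := by
      intro l _
      rw [abs_mul]
      exact mul_le_mul ((h.mo_bound x l).trans (hM x)) (h.mo_bound x _) (abs_nonneg _) hM0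
    refine (Finset.sum_le_sum this).trans ?_
    rw [Finset.sum_const, Finset.card_range, nsmul_eq_mul]
  have hterm : ∀ q x, |Dm (α q) x * mo u (β q) x + mo u (α q) x * Dm (β q) x| ≤
      ((‖u x‖ ^ 2 + ‖g x‖ ^ 2) + α q * (M * ‖u x‖ ^ 2)) * M +
      M * ((‖u x‖ ^ 2 + ‖g x‖ ^ 2) + β q * (M * ‖u x‖ ^ 2)) := by
    intro q x
    refine (abs_add_le _ _).trans (add_le_add ?_ ?_)
    · rw [abs_mul]
      exact mul_le_mul (hDmb _ x) ((h.mo_bound x _).trans (hM x)) (abs_nonneg _) (by positivity)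
    · rw [abs_mul]
      exact mul_le_mul ((h.mo_bound x _).trans (hM x)) (hDmb _ x) (abs_nonneg _) hM0
  have hΦ'i : Integrable Φ' := by
    have hdom : Integrable (fun x => |κ| * ∑ q ∈ S, |w q| *
        (((‖u x‖ ^ 2 + ‖g x‖ ^ 2) + α q * (M * ‖u x‖ ^ 2)) * M +
      M * ((‖u x‖ ^ 2 + ‖g x‖ ^ 2) + β q * (M * ‖u x‖ ^ 2)))) := by
      refine Integrable.const_mul (integrable_finsetSum _ fun q _ => Integrable.const_mul ?_ _) _
      refine Integrable.add (Integrable.mul_const ?_ _) (Integrable.const_mul ?_ _)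
      · exact (h.ui.add h.gi).add ((h.ui.const_mul _).const_mul _)
      · exact (h.ui.add h.gi).add ((h.ui.const_mul _).const_mul _)
    refine hdom.mono' hΦ'c (Eventually.of_forall fun x => ?_)
    rw [Real.norm_eq_abs]
    simp only [hΦ']
    rw [abs_mul]
    refine mul_le_mul_of_nonneg_left ?_ (abs_nonneg _)
    refine (Finset.abs_sum_le_sum_abs _ _).trans (Finset.sum_le_sum fun q _ => ?_)
    rw [abs_mul]
    exact mul_le_mul_of_nonneg_left (hterm q x) (abs_nonneg _)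
  have hΦb : ∀ x, |Φ x| ≤ |κ| * (∑ q ∈ S, |w q|) * (‖u x‖ ^ 2) ^ 2 := by
    intro x
    simp only [hΦ]
    rw [abs_mul, mul_assoc]
    refine mul_le_mul_of_nonneg_left ?_ (abs_nonneg _)
    rw [Finset.sum_mul]
    refine (Finset.abs_sum_le_sum_abs _ _).trans (Finset.sum_le_sum fun q _ => ?_)
    rw [abs_mul, abs_mul, pow_two]
    refine mul_le_mul_of_nonneg_left ?_ (abs_nonneg _)
    exact mul_le_mul (h.mo_bound x _) (h.mo_bound x _) (abs_nonneg _) (sq_nonneg _)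
  have hΦT : Tendsto Φ atTop (𝓝 0) := by
    refine squeeze_zero_norm hΦb ?_
    have := (h.rho_top.pow 2).const_mul (|κ| * (∑ q ∈ S, |w q|))
    simpa using this
  have hΦB : Tendsto Φ atBot (𝓝 0) := by
    refine squeeze_zero_norm hΦb ?_
    have := (h.rho_bot.pow 2).const_mul (|κ| * (∑ q ∈ S, |w q|))
    simpa using this
  have hzero : ∫ x, Φ' x = 0 := hΦd.integral_eq_zero hΦ'i hΦB hΦT
  -- pointwise inequality
  have hpt : ∀ x, Φ' x + c0 * (‖u x‖ ^ 2) ^ 3 + 2 * c1 * (‖u x‖ ^ 2 * Rem u x) +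
      ‖g x - VF S w α β κ u x‖ ^ 2 ≤ ‖g x‖ ^ 2 := by
    intro x
    obtain ⟨n, e, c, d, he, hmo, hmu, hd, hc, hV⟩ := h.coords x (g x)
    have := pointwise' S w α β κ c0 c1 e c d hsym
      (fun i k j => hK (e i) (he i) (e k) (he k) (e j) (he j))
    rw [hV, ← hd]
    have e0 : ∑ i, e i ^ 0 * c i ^ 2 = ∑ i, c i ^ 2 :=
      Finset.sum_congr rfl fun i _ => by ring
    have e1 : ∑ i, e i ^ 1 * c i ^ 2 = ∑ i, e i * c i ^ 2 :=
      Finset.sum_congr rfl fun i _ => by ring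
    have hRem : 2 * c1 * (‖u x‖ ^ 2 * Rem u x) = c1 * (2 * (∑ i, c i ^ 2) *
        ((∑ i, c i ^ 2) * (∑ i, e i ^ 2 * c i ^ 2) - (∑ i, e i * c i ^ 2) ^ 2)) := by
      rw [Rem, hmo, hmo, hmo, ← hc, e0, e1]
      ring
    rw [hRem, ← hc]
    simp only [hΦ', hDm, hmo, mu, hmu]
    exact this
  have hi1 := h.rho3_int.const_mul c0
  have hi2 := h.rem_int.const_mul (2 * c1)
  have hi3 := h.VF_sq_int S w α β κ
  have hint : ∫ x, (Φ' x + c0 * (‖u x‖ ^ 2) ^ 3 + 2 * c1 * (‖u x‖ ^ 2 * Rem u x) +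
      ‖g x - VF S w α β κ u x‖ ^ 2) ≤ ∫ x, ‖g x‖ ^ 2 :=
    integral_mono (((hΦ'i.add hi1).add hi2).add hi3) h.gi hpt
  have hj1 : Integrable (fun x => Φ' x + c0 * (‖u x‖ ^ 2) ^ 3) := hΦ'i.add hi1
  have hj2 : Integrable (fun x => Φ' x + c0 * (‖u x‖ ^ 2) ^ 3 +
      2 * c1 * (‖u x‖ ^ 2 * Rem u x)) := hj1.add hi2
  rw [integral_add hj2 hi3, integral_add hj1 hi2,
    integral_add hΦ'i hi1, hzero, integral_const_mul, integral_const_mul, zero_add] at hint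
  exact hint

end kernel

end HSys

end Pool.Agent.Q93.LT
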