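import Pool.Agent.Q93.LT.Eq
import Pool.Agent.Helper490.LTH1C

set_option autoImplicit false

open MeasureTheory Set Filter Topology Real
open scoped RealInnerProductSpace ENNReal

namespace Pool.Agent.Q93.LT

open Pool.Helper490.Calib

/-- Bessel's inequality for the real coordinates of an orthogonal family of functions of norm at
most one. -/
lemma bessel_of_orthogonal {N : ℕ} (u : Fin N → ℝ → ℂ) (l : Fin N → ℝ) (hl : ∀ n, l n ≤ 1)
    (hm : ∀ n, AEStronglyMeasurable (u n) volume) (h2 : ∀ n, Integrable (fun x => ‖u n x‖ ^ 2))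
    (ho : ∀ n m, ∫ x, star (u n x) * u m x = if n = m then (l n : ℂ) else 0)
    (v : EuclideanSpace ℝ (Fin N ⊕ Fin N)) :
    ∫ x, ⟪realify (fun n => u n x), v⟫ ^ 2 ≤ ‖v‖ ^ 2 := by
  have hij : ∀ n m, Integrable (fun x => star (u n x) * u m x) := by
    intro n m
    have hm : AEStronglyMeasurable (fun x => star (u n x) * u m x) volume :=
      ((hm n).star).mul (hm m)
    refine ((h2 n).add (h2 m)).mono' hm (Eventually.of_forall fun x => ?_)
    rw [norm_mul, norm_star]
    simp only [Pi.add_apply]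
    nlinarith [sq_nonneg (‖u n x‖ - ‖u m x‖), norm_nonneg (u n x), norm_nonneg (u m x)]
  set z : Fin N → ℂ := fun n => ⟨v (Sum.inl n), v (Sum.inr n)⟩ with hz
  set g : ℝ → ℂ := fun x => ∑ n, star (z n) * u n x with hg
  have hinner : ∀ x, ⟪realify (fun n => u n x), v⟫ = (g x).re := fun x => realify_inner _ v
  have hexp : ∀ x, star (g x) * g x =
      ∑ n, ∑ m, (z n * star (z m)) * (star (u n x) * u m x) := by
    intro x
    simp only [hg, star_sum, star_mul', star_star]
    rw [Finset.sum_mul_sum]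
    refine Finset.sum_congr rfl fun n _ => Finset.sum_congr rfl fun m _ => ?_
    ring
  have hgi : Integrable (fun x => star (g x) * g x) := by
    simp only [hexp]
    exact integrable_finsetSum _ fun n _ => integrable_finsetSum _ fun m _ =>
      (hij n m).const_mul _
  have hgint : ∫ x, star (g x) * g x = ((∑ n, l n * ‖z n‖ ^ 2 : ℝ) : ℂ) := by
    simp only [hexp]
    rw [integral_finsetSum _ fun n _ => integrable_finsetSum _ fun m _ =>
      (hij n m).const_mul _]
    push_cast
    refine Finset.sum_congr rfl fun n _ => ?_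
    rw [integral_finsetSum _ fun m _ => (hij n m).const_mul _]
    simp only [integral_const_mul, ho]
    simp only [mul_ite, mul_zero, Finset.sum_ite_eq, Finset.mem_univ, if_true]
    rw [mul_comm]
    congr 1
    rw [← Complex.ofReal_pow, ← Complex.normSq_eq_norm_sq]
    exact Complex.mul_conj _
  have hnorm : ∀ x, ((‖g x‖ ^ 2 : ℝ) : ℂ) = star (g x) * g x := by
    intro x
    rw [mul_comm]
    rw [← Complex.normSq_eq_norm_sq]
    exact (Complex.mul_conj _).symm
  have hgi2 : Integrable (fun x => ‖g x‖ ^ 2) := by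
    have := hgi.re
    refine this.congr (Eventually.of_forall fun x => ?_)
    simp only [← hnorm]
    exact Complex.ofReal_re _
  have hval : ∫ x, ‖g x‖ ^ 2 = ∑ n, l n * ‖z n‖ ^ 2 := by
    have h1 : ((∫ x, ‖g x‖ ^ 2 : ℝ) : ℂ) = ((∑ n, l n * ‖z n‖ ^ 2 : ℝ) : ℂ) := by
      rw [← hgint, ← integral_complex_ofReal]
      exact integral_congr_ae (Eventually.of_forall fun x => hnorm x)
    exact_mod_cast h1
  have hv : ‖v‖ ^ 2 = ∑ n, ‖z n‖ ^ 2 := by
    rw [EuclideanSpace.norm_sq_eq, Fintype.sum_sum_type, ← Finset.sum_add_distrib]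
    refine Finset.sum_congr rfl fun n _ => ?_
    rw [sqn]
    simp [hz]
  have hle : ∑ n, l n * ‖z n‖ ^ 2 ≤ ∑ n, ‖z n‖ ^ 2 :=
    Finset.sum_le_sum fun n _ => by nlinarith [hl n, sq_nonneg ‖z n‖]
  rw [hv]
  refine le_trans ?_ hle
  rw [← hval]
  refine integral_mono_of_nonneg (Eventually.of_forall fun x => sq_nonneg _) hgi2
    (Eventually.of_forall fun x => ?_)
  simp only [hinner]
  rw [sqn]
  nlinarith [sq_nonneg (g x).im]

/-- The real system of a complex system. -/
theorem hsys_of_complex {N : ℕ} (u g : Fin N → ℝ → ℂ) (l : Fin N → ℝ) (hl : ∀ n, l n ≤ 1)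
    (hu2 : ∀ n, MemLp (u n) 2) (hg2 : ∀ n, MemLp (g n) 2)
    (hug : ∀ n a b, u n b - u n a = ∫ x in a..b, g n x)
    (ho : ∀ n m, ∫ x, star (u n x) * u m x = if n = m then (l n : ℂ) else 0) :
    HSys (fun x => realify fun n => u n x) (fun x => realify fun n => g n x) := by
  have hui : ∀ n, Integrable (fun x => ‖u n x‖ ^ 2) := fun n =>
    (hu2 n).integrable_norm_pow (by norm_num)
  have hmem : ∀ f : Fin N → ℝ → ℂ, (∀ n, MemLp (f n) 2) →
      MemLp (fun x => realify fun n => f n x) 2 := by
    intro f hf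
    have hfm : AEStronglyMeasurable (fun x => fun n => f n x) volume :=
      (aemeasurable_pi_lambda _ fun n => (hf n).1.aemeasurable).aestronglyMeasurable
    have hm : AEStronglyMeasurable (fun x => realify fun n => f n x) volume :=
      (realifyL N).continuous.comp_aestronglyMeasurable hfm
    rw [memLp_two_iff_integrable_sq_norm hm]
    simp only [realify_norm]
    exact integrable_finsetSum _ fun n _ => (hf n).integrable_norm_pow (by norm_num)
  have hII : ∀ n a b, IntervalIntegrable (g n) volume a b := by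
    intro n a b
    have h1 : LocallyIntegrable (g n) volume := (hg2 n).locallyIntegrable (by norm_num)
    exact intervalIntegrable_iff.2 ((h1.integrableOn_isCompact isCompact_uIcc).mono_set
      uIoc_subset_uIcc)
  refine ⟨hmem u hu2, hmem g hg2, ?_,
    fun v => bessel_of_orthogonal u l hl (fun n => (hu2 n).1) hui ho v⟩
  intro a b
  have hpi : IntervalIntegrable (fun x => fun n => g n x) volume a b := by
    rw [intervalIntegrable_iff]
    exact Integrable.of_eval fun n => intervalIntegrable_iff.1 (hII n a b)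
  have h1 := (realifyL N).intervalIntegral_comp_comm hpi
  simp only [realifyL_apply] at h1
  rw [h1, ← realifyL_apply, ← realifyL_apply, ← realifyL_apply, ← map_sub]
  congr 1
  funext n
  rw [Pi.sub_apply, hug n a b]
  have h2 := (ContinuousLinearMap.proj (R := ℝ) (φ := fun _ : Fin N => ℂ) n).intervalIntegral_comp_comm hpi
  simpa using h2

/-- The image of a component of a vector under the realified operator. -/
noncomputable def halfLine {N : ℕ} (u : Fin N → ℝ → ℂ) (x : ℝ) (n : Fin N) : ℂ :=
  ∫ y in Iic x, (((∑ m, star (u m y) * u m x).re : ℝ) : ℂ) * u n y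

lemma re_star_mul (a b : ℂ) : (star a * b).re = (star b * a).re := by
  simp only [Complex.star_def, Complex.mul_re, Complex.conj_re, Complex.conj_im]
  ring

/-- The remainder density in complex terms. -/
lemma rem_complex {N : ℕ} (u g : Fin N → ℝ → ℂ) (hm : ∀ n, AEStronglyMeasurable (u n) volume)
    (h : HSys (fun x => realify fun n => u n x) (fun x => realify fun n => g n x)) (x : ℝ) :
    Rem (fun x => realify fun n => u n x) x =
      (∑ n, ‖u n x‖ ^ 2) * (∑ n, ‖halfLine u x n‖ ^ 2) -
        (∑ n, (star (halfLine u x n) * u n x).re) ^ 2 := by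
  set U : ℝ → EuclideanSpace ℝ (Fin N ⊕ Fin N) := fun x => realify fun n => u n x with hU
  have hin : ∀ y, ⟪U y, U x⟫ = (∑ m, star (u m y) * u m x).re := by
    intro y
    rw [real_inner_comm, hU]
    simp only
    rw [realify_inner]
    congr 1
  have hcomp : ∀ y n, ‖u n y‖ ≤ ‖U y‖ := by
    intro y n
    have h1 : ‖u n y‖ ^ 2 ≤ ‖U y‖ ^ 2 := by
      rw [hU]
      simp only [realify_norm]
      exact Finset.single_le_sum (f := fun n => ‖u n y‖ ^ 2) (fun i _ => sq_nonneg _)
        (Finset.mem_univ n)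
    exact abs_le_of_sq_le_sq' h1 (norm_nonneg _) |>.2
  have hfi : ∀ n, IntegrableOn (fun y => (((∑ m, star (u m y) * u m x).re : ℝ) : ℂ) * u n y)
      (Iic x) := by
    intro n
    have hb : Integrable (fun y => ‖U x‖ * ‖U y‖ ^ 2) := h.ui.const_mul _
    refine hb.integrableOn.mono' ?_ (Eventually.of_forall fun y => ?_)
    · have hc : Continuous fun y => ⟪U y, U x⟫ := h.uc.inner continuous_const
      have h1 : AEStronglyMeasurable (fun y => ((⟪U y, U x⟫ : ℝ) : ℂ) * u n y) volume :=
        (Complex.continuous_ofReal.comp hc).aestronglyMeasurable.mul (hm n)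
      simp only [hin] at h1
      exact h1.restrict
    · rw [← hin, norm_mul, Complex.norm_real]
      have h1 := norm_inner_le_norm (𝕜 := ℝ) (U y) (U x)
      calc ‖⟪U y, U x⟫‖ * ‖u n y‖ ≤ (‖U y‖ * ‖U x‖) * ‖U y‖ :=
            mul_le_mul h1 (hcomp y n) (norm_nonneg _) (by positivity)
        _ = ‖U x‖ * ‖U y‖ ^ 2 := by ring
  -- the operator applied to the vector
  have hG : Gam U x (U x) = realify (halfLine u x) := by
    have h1 : Gam U x (U x) = ∫ y in Iic x, R U y (U x) :=
      ContinuousLinearMap.integral_apply h.Ri.integrableOn (U x)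
    have h3 : ∀ y, R U y (U x) =
        realify fun n => (((∑ m, star (u m y) * u m x).re : ℝ) : ℂ) * u n y := by
      intro y
      rw [Pool.Helper490.Calib.R_apply, hin]
      ext i
      rcases i with i | i <;> simp [hU, realify]
    have hpi : Integrable (fun y => fun n =>
        (((∑ m, star (u m y) * u m x).re : ℝ) : ℂ) * u n y) (volume.restrict (Iic x)) :=
      Integrable.of_eval hfi
    have h4 := (realifyL N).integral_comp_comm hpi
    simp only [realifyL_apply] at h4
    rw [h1]
    simp only [h3]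
    rw [h4]
    congr 1
    funext n
    have h5 := (ContinuousLinearMap.proj (R := ℝ) (φ := fun _ : Fin N => ℂ) n).integral_comp_comm
      hpi
    simpa [halfLine] using h5.symm
  have hB : Bop U x (U x) = Gam U x (U x) - (1 / 2 : ℝ) • U x := by simp [Bop]
  have m0 : mo U 0 x = ‖U x‖ ^ 2 := h.mo_zero x
  have m2 : mo U 2 x = ‖Bop U x (U x)‖ ^ 2 := by
    rw [← real_inner_self_eq_norm_sq, h.Bop_symm, mo, pow_two, mul_apply_eq_comp]
  have m1 : mo U 1 x = ⟪U x, Bop U x (U x)⟫ := by rw [mo, pow_one]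
  have n1 : ‖U x‖ ^ 2 = ∑ n, ‖u n x‖ ^ 2 := realify_norm _
  have n2 : ‖Gam U x (U x)‖ ^ 2 = ∑ n, ‖halfLine u x n‖ ^ 2 := by rw [hG, realify_norm]
  have n3 : ⟪Gam U x (U x), U x⟫ = ∑ n, (star (halfLine u x n) * u n x).re := by
    rw [hG, realify_inner, Complex.re_sum]
    refine Finset.sum_congr rfl fun n _ => ?_
    rw [re_star_mul]
    rfl
  have k1 : ‖Bop U x (U x)‖ ^ 2 = ‖Gam U x (U x)‖ ^ 2 - ⟪Gam U x (U x), U x⟫ +
      1 / 4 * ‖U x‖ ^ 2 := by
    rw [hB, norm_sub_sq_real, real_inner_smul_right, norm_smul, mul_pow]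
    norm_num
    ring
  have k2 : ⟪U x, Bop U x (U x)⟫ = ⟪Gam U x (U x), U x⟫ - 1 / 2 * ‖U x‖ ^ 2 := by
    rw [hB, inner_sub_right, real_inner_smul_right, real_inner_self_eq_norm_sq,
      real_inner_comm (U x)]
  rw [Rem, m0, m2, m1, k1, k2, ← n1, ← n2, ← n3]
  ring

end Pool.Agent.Q93.LT
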