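import Pool.Agent.Q93.LT.Stm

/-!
Project LT of helper93, job KER: polynomial kernels with quadratic remainder.
-/

set_option autoImplicit false

open Finset Set Real

namespace Pool.Agent.Q93.LT

open Pool.Helper490.Calib

namespace KerAux

lemma sin_low {x : ℝ} (hx : 0 ≤ x) : x - x ^ 3 / 6 ≤ sin x := by
  have hd : ∀ y : ℝ, HasDerivAt (fun y : ℝ => sin y - (y - y ^ 3 / 6)) (cos y - (1 - y ^ 2 / 2)) y := by
    intro y
    have h1 := (hasDerivAt_sin y).sub ((hasDerivAt_id y).sub ((hasDerivAt_pow 3 y).div_const 6))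
    refine h1.congr_deriv ?_
    simp only [Nat.cast_ofNat, Nat.add_one_sub_one]
    ring
  have hmono : MonotoneOn (fun y : ℝ => sin y - (y - y ^ 3 / 6)) (Ici 0) := by
    refine monotoneOn_of_deriv_nonneg (convex_Ici 0) ?_ ?_ ?_
    · exact fun y _ => (hd y).continuousAt.continuousWithinAt
    · exact fun y _ => (hd y).differentiableAt.differentiableWithinAt
    · intro y _
      rw [(hd y).deriv]
      linarith [one_sub_sq_div_two_le_cos (x := y)]
  have h := hmono (show (0 : ℝ) ∈ Ici (0 : ℝ) from le_refl (0 : ℝ)) (show x ∈ Ici (0 : ℝ) from hx) hx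
  simp only [sin_zero] at h
  linarith

lemma sin_cos_low {x : ℝ} (h0 : 0 ≤ x) (h1 : x ≤ π / 2) : x * cos x + x ^ 3 / 4 ≤ sin x := by
  have hd : ∀ y : ℝ, HasDerivAt (fun y : ℝ => sin y - y * cos y - (y ^ 3 / 3 - y ^ 5 / 30))
      (y * (sin y - (y - y ^ 3 / 6))) y := by
    intro y
    have h1 := ((hasDerivAt_sin y).sub ((hasDerivAt_id y).mul (hasDerivAt_cos y))).sub
      (((hasDerivAt_pow 3 y).div_const 3).sub ((hasDerivAt_pow 5 y).div_const 30))
    refine h1.congr_deriv ?_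
    simp only [Nat.cast_ofNat, Nat.add_one_sub_one, id_eq]
    ring
  have hmono : MonotoneOn (fun y : ℝ => sin y - y * cos y - (y ^ 3 / 3 - y ^ 5 / 30)) (Ici 0) := by
    refine monotoneOn_of_deriv_nonneg (convex_Ici 0) ?_ ?_ ?_
    · exact fun y _ => (hd y).continuousAt.continuousWithinAt
    · exact fun y _ => (hd y).differentiableAt.differentiableWithinAt
    · intro y hy
      rw [interior_Ici] at hy
      have hy' : 0 < y := hy
      rw [(hd y).deriv]
      have := sin_low hy'.le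
      exact mul_nonneg hy'.le (by linarith)
  have h := hmono (show (0 : ℝ) ∈ Ici (0 : ℝ) from le_refl (0 : ℝ)) (show x ∈ Ici (0 : ℝ) from h0) h0
  simp only [sin_zero] at h
  have hpi := pi_lt_d2
  have hx : x ≤ 1.575 := by linarith
  have hx2 : x ^ 2 ≤ 5 / 2 := by nlinarith
  have hx3 : 0 ≤ x ^ 3 := by positivity
  have h5 : x ^ 5 / 30 ≤ x ^ 3 / 12 := by
    have : x ^ 5 = x ^ 3 * x ^ 2 := by ring
    rw [this]
    nlinarith
  linarith

lemma tan_key' {a b : ℝ} (ha : a ∈ Ioo (-(π / 2)) (π / 2)) (hb : b ∈ Ioo (-(π / 2)) (π / 2))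
    (hab : b < a) (hab' : a - b < π / 2) :
    1 + tan a * tan b + (a - b) ^ 2 / 4 ≤ (tan a - tan b) / (a - b) := by
  have hca : 0 < cos a := cos_pos_of_mem_Ioo ha
  have hcb : 0 < cos b := cos_pos_of_mem_Ioo hb
  have hx : 0 < a - b := by linarith
  rw [le_div_iff₀ hx, tan_eq_sin_div_cos, tan_eq_sin_div_cos]
  have h := sin_cos_low hx.le hab'.le
  have hcc : cos a * cos b ≤ 1 := by
    have h1 := cos_le_one a
    have h2 := cos_le_one b
    nlinarith
  have hx3 : 0 ≤ (a - b) ^ 3 / 4 := by positivity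
  have h' : (a - b) * cos (a - b) + (a - b) ^ 3 / 4 * (cos a * cos b) ≤ sin (a - b) := by
    nlinarith
  rw [cos_sub, sin_sub] at h'
  have e1 : (1 + sin a / cos a * (sin b / cos b) + (a - b) ^ 2 / 4) * (a - b) =
      ((a - b) * (cos a * cos b + sin a * sin b) + (a - b) ^ 3 / 4 * (cos a * cos b)) /
        (cos a * cos b) := by
    field_simp
  have e2 : sin a / cos a - sin b / cos b =
      (sin a * cos b - cos a * sin b) / (cos a * cos b) := by
    field_simp
  rw [e1, e2]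
  exact div_le_div_of_nonneg_right h' (by positivity)

/-- The kernel inequality for the tangent. -/
lemma tan_kernel' {θ : ℝ} (hθ0 : 0 < θ) (hθ : θ < π) {s r t : ℝ}
    (hs : s ∈ Icc (-(1 / 2) : ℝ) (1 / 2)) (hr : r ∈ Icc (-(1 / 2) : ℝ) (1 / 2))
    (ht : t ∈ Icc (-(1 / 2) : ℝ) (1 / 2)) (hne : s ≠ r) :
    θ ^ 2 / 4 * (tan (θ / 2 * (s + t)) * tan (θ / 2 * (r + t))) +
      θ / 2 * ((-tan (θ / 2 * (s + t)) - -tan (θ / 2 * (r + t))) / (s - r)) + θ ^ 2 / 4 +
      θ ^ 4 / 64 * (s - r) ^ 2 ≤ 0 := by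
  obtain ⟨hs1, hs2⟩ := hs
  obtain ⟨hr1, hr2⟩ := hr
  obtain ⟨ht1, ht2⟩ := ht
  wlog hlt : r < s generalizing s r
  · have h := this hne.symm hr1 hr2 hs1 hs2 (lt_of_le_of_ne (not_lt.1 hlt) hne)
    have e : (-tan (θ / 2 * (r + t)) - -tan (θ / 2 * (s + t))) / (r - s) =
        (-tan (θ / 2 * (s + t)) - -tan (θ / 2 * (r + t))) / (s - r) := by
      rw [← neg_sub s r, div_neg, ← neg_div]; ring_nf
    have e' : (r - s) ^ 2 = (s - r) ^ 2 := by ring
    rw [e, e', mul_comm (tan (θ / 2 * (r + t)))] at h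
    exact h
  have ha : θ / 2 * (s + t) ∈ Ioo (-(π / 2)) (π / 2) := by constructor <;> nlinarith
  have hb : θ / 2 * (r + t) ∈ Ioo (-(π / 2)) (π / 2) := by constructor <;> nlinarith
  have hab : θ / 2 * (r + t) < θ / 2 * (s + t) := by nlinarith
  have hab' : θ / 2 * (s + t) - θ / 2 * (r + t) < π / 2 := by nlinarith
  have key := tan_key' ha hb hab hab'
  have hsr : 0 < s - r := by linarith
  have e1 : (tan (θ / 2 * (s + t)) - tan (θ / 2 * (r + t))) /
      (θ / 2 * (s + t) - θ / 2 * (r + t)) =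
      2 / θ * ((tan (θ / 2 * (s + t)) - tan (θ / 2 * (r + t))) / (s - r)) := by
    have : θ / 2 * (s + t) - θ / 2 * (r + t) = θ / 2 * (s - r) := by ring
    rw [this]
    field_simp
  have e0 : (θ / 2 * (s + t) - θ / 2 * (r + t)) ^ 2 / 4 = θ ^ 2 / 16 * (s - r) ^ 2 := by ring
  rw [e1, e0] at key
  have e2 : (-tan (θ / 2 * (s + t)) - -tan (θ / 2 * (r + t))) / (s - r) =
      - ((tan (θ / 2 * (s + t)) - tan (θ / 2 * (r + t))) / (s - r)) := by
    rw [← neg_div]; ring_nf
  rw [e2]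
  have h3 := mul_le_mul_of_nonneg_left key (by positivity : (0:ℝ) ≤ θ ^ 2 / 4)
  have e3 : θ ^ 2 / 4 * (2 / θ * ((tan (θ / 2 * (s + t)) - tan (θ / 2 * (r + t))) / (s - r))) =
      θ / 2 * ((tan (θ / 2 * (s + t)) - tan (θ / 2 * (r + t))) / (s - r)) := by
    field_simp
    ring
  rw [e3] at h3
  have e4 : θ ^ 2 / 4 * (1 + tan (θ / 2 * (s + t)) * tan (θ / 2 * (r + t)) +
      θ ^ 2 / 16 * (s - r) ^ 2) = θ ^ 2 / 4 + θ ^ 2 / 4 *
      (tan (θ / 2 * (s + t)) * tan (θ / 2 * (r + t))) + θ ^ 4 / 64 * (s - r) ^ 2 := by ring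
  rw [e4] at h3
  linarith

end KerAux

open KerAux

/-- Existence of the polynomial kernels. -/
theorem ker : S_KER := by
  intro θ hθ0 hθ δ hδ
  set C : ℝ := tan (θ / 2) with hC
  have hθ2 : θ / 2 ∈ Ioo (-(π / 2)) (π / 2) := by constructor <;> linarith
  have hC0 : 0 ≤ C := (tan_pos_of_pos_of_lt_pi_div_two (by linarith) hθ2.2).le
  set B : ℝ := 4 * (θ / 4) ^ 2 * (2 * C + 1) + 2 * (θ / 4) with hB
  have hB0 : 0 < B := by positivity
  set ε : ℝ := min (min 1 (δ / B)) δ with hε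
  have hε0 : 0 < ε := lt_min (lt_min one_pos (div_pos hδ hB0)) hδ
  have hε1 : ε ≤ 1 := (min_le_left _ _).trans (min_le_left _ _)
  have hεδ : ε ≤ δ := min_le_right _ _
  have hεB : ε * B ≤ δ := by
    have : ε ≤ δ / B := (min_le_left _ _).trans (min_le_right (1:ℝ) (δ / B))
    rw [le_div_iff₀ hB0] at this
    exact this
  have hmem : ∀ x ∈ Icc (-1 : ℝ) 1, θ / 2 * x ∈ Ioo (-(π / 2)) (π / 2) := by
    intro x hx
    obtain ⟨h1, h2⟩ := hx
    constructor <;> nlinarith
  have hcos : ∀ x ∈ Icc (-1 : ℝ) 1, cos (θ / 2 * x) ≠ 0 := fun x hx =>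
    (cos_pos_of_mem_Ioo (hmem x hx)).ne'
  have hcont : ContinuousOn (fun x : ℝ => -(θ / 2 * (1 / cos (θ / 2 * x) ^ 2))) (Icc (-1) 1) := by
    refine (ContinuousOn.mul continuousOn_const (ContinuousOn.div continuousOn_const ?_ ?_)).neg
    · fun_prop
    · intro x hx
      exact pow_ne_zero 2 (hcos x hx)
  obtain ⟨q, hq⟩ := exists_polynomial_near_of_continuousOn (-1) 1 _ hcont ε hε0
  set K : ℕ := q.natDegree + 1 with hK
  set a : ℕ → ℝ := q.coeff with ha
  set F : ℝ → ℝ := FF K a with hF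
  have hFd : ∀ x, HasDerivAt F (q.eval x) x := by
    intro x
    rw [Polynomial.eval_eq_sum_range]
    exact FF_deriv K a x
  set G : ℝ → ℝ := fun x => -tan (θ / 2 * x) with hG
  have hGd : ∀ x ∈ Icc (-1 : ℝ) 1, HasDerivAt G (-(θ / 2 * (1 / cos (θ / 2 * x) ^ 2))) x := by
    intro x hx
    have h1 : HasDerivAt (fun x : ℝ => θ / 2 * x) (θ / 2) x := by
      simpa using (hasDerivAt_id x).const_mul (θ / 2)
    have h2 := (hasDerivAt_tan (hcos x hx)).comp x h1
    refine h2.neg.congr_deriv ?_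
    ring
  set H : ℝ → ℝ := fun x => F x - G x with hH
  have hHd : ∀ x ∈ Icc (-1 : ℝ) 1,
      HasDerivWithinAt H (q.eval x - -(θ / 2 * (1 / cos (θ / 2 * x) ^ 2))) (Icc (-1) 1) x :=
    fun x hx => ((hFd x).sub (hGd x hx)).hasDerivWithinAt
  have hHL : ∀ x ∈ Icc (-1 : ℝ) 1, ∀ y ∈ Icc (-1 : ℝ) 1, |H y - H x| ≤ ε * |y - x| := by
    intro x hx y hy
    have := (convex_Icc (-1 : ℝ) 1).norm_image_sub_le_of_norm_hasDerivWithin_le (C := ε) hHd
      (fun z hz => by rw [Real.norm_eq_abs]; exact (hq z hz).le) hx hy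
    simpa only [Real.norm_eq_abs] using this
  have hH0 : H 0 = 0 := by simp [hH, hG, hF, FF_zero]
  have hHb : ∀ x ∈ Icc (-1 : ℝ) 1, |H x| ≤ ε := by
    intro x hx
    have h1 := hHL 0 (by constructor <;> norm_num) x hx
    rw [hH0, sub_zero, sub_zero] at h1
    have h2 : |x| ≤ 1 := abs_le.2 hx
    nlinarith
  have hGb : ∀ x ∈ Icc (-1 : ℝ) 1, |G x| ≤ C := by
    intro x hx
    simp only [hG, abs_neg, hC]
    have hm := hmem x hx
    have hh2 := hθ2
    rw [abs_le, ← tan_neg]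
    obtain ⟨h1, h2⟩ := hx
    have hneg : -(θ / 2) ∈ Ioo (-(π / 2)) (π / 2) := by
      constructor <;> linarith [hh2.1, hh2.2]
    constructor
    · exact strictMonoOn_tan.monotoneOn hneg hm (by nlinarith)
    · exact strictMonoOn_tan.monotoneOn hm hh2 (by nlinarith)
  refine ⟨K, a, fun s t => by rw [P_eq, P_eq, add_comm], ?_, ?_⟩
  swap
  · intro s hs t ht
    rw [P_eq]
    have hst : s + t ∈ Icc (-1 : ℝ) 1 := ⟨by linarith [hs.1, ht.1], by linarith [hs.2, ht.2]⟩
    have h1 := hHb (s + t) hst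
    have e : FF K a (s + t) + tan (θ / 2 * (s + t)) = H (s + t) := by
      simp only [hH, hG, hF]
      ring
    rw [e]
    exact h1.trans hεδ
  -- the inequality off the diagonal
  have hoff : ∀ s ∈ Icc (-(1 / 2) : ℝ) (1 / 2), ∀ r ∈ Icc (-(1 / 2) : ℝ) (1 / 2),
        ∀ t ∈ Icc (-(1 / 2) : ℝ) (1 / 2), s ≠ r →
        4 * (θ / 4) ^ 2 * (P (SS K) (ww a) (fun q => q.2.1) (fun q => q.2.2) t s *
          P (SS K) (ww a) (fun q => q.2.1) (fun q => q.2.2) t r) +
        θ / 4 * D (SS K) (ww a) (fun q => q.2.1) (fun q => q.2.2) s r t +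
          (θ ^ 2 / 4 - δ) + θ ^ 4 / 64 * (s - r) ^ 2 ≤ 0 := by
    intro s hs r hr t ht hne
    have hsr : s - r ≠ 0 := sub_ne_zero.2 hne
    have hw : s + t ∈ Icc (-1 : ℝ) 1 := ⟨by linarith [hs.1, ht.1], by linarith [hs.2, ht.2]⟩
    have hw' : r + t ∈ Icc (-1 : ℝ) 1 := ⟨by linarith [hr.1, ht.1], by linarith [hr.2, ht.2]⟩
    have hD : D (SS K) (ww a) (fun q => q.2.1) (fun q => q.2.2) s r t =
        2 * ((F (s + t) - F (r + t)) / (s - r)) := by
      have := D_mul (SS K) (ww a) (fun q => q.2.1) (fun q => q.2.2) s r t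
      rw [P_eq, P_eq, P_eq, P_eq, add_comm t s, add_comm t r] at this
      rw [← mul_div_assoc, eq_div_iff hsr, this]
      ring
    rw [hD, P_eq, P_eq, add_comm t s, add_comm t r]
    have hker := tan_kernel' hθ0 hθ hs hr ht hne
    have hFG : ∀ x, F x = G x + H x := fun x => by simp [hH]
    change 4 * (θ / 4) ^ 2 * (F (s + t) * F (r + t)) + θ / 4 * (2 * ((F (s + t) - F (r + t)) /
      (s - r))) + (θ ^ 2 / 4 - δ) + θ ^ 4 / 64 * (s - r) ^ 2 ≤ 0
    rw [hFG, hFG (r + t)]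
    have h1 := abs_le.1 (hHb _ hw)
    have h2 := abs_le.1 (hHb _ hw')
    have h3 := abs_le.1 (hGb _ hw)
    have h4 := abs_le.1 (hGb _ hw')
    have h5 : |(H (s + t) - H (r + t)) / (s - r)| ≤ ε := by
      rw [abs_div, div_le_iff₀ (abs_pos.2 hsr)]
      have := hHL _ hw' _ hw
      have e : s + t - (r + t) = s - r := by ring
      rwa [e] at this
    have h5' := (abs_le.1 h5).2
    have e1 : (G (s + t) + H (s + t) - (G (r + t) + H (r + t))) / (s - r) =
        (G (s + t) - G (r + t)) / (s - r) + (H (s + t) - H (r + t)) / (s - r) := by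
      rw [← add_div]; ring
    rw [e1]
    have hker' : θ ^ 2 / 4 * (G (s + t) * G (r + t)) +
      θ / 2 * ((G (s + t) - G (r + t)) / (s - r)) + θ ^ 2 / 4 + θ ^ 4 / 64 * (s - r) ^ 2 ≤ 0 := by
      have e : G (s + t) * G (r + t) = tan (θ / 2 * (s + t)) * tan (θ / 2 * (r + t)) := by
        simp only [hG]; ring
      rw [e]
      exact hker
    have hcross : |G (s + t) * H (r + t) + H (s + t) * G (r + t) + H (s + t) * H (r + t)| ≤
        ε * (2 * C + 1) := by
      have i1 : |G (s + t) * H (r + t)| ≤ C * ε := by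
        rw [abs_mul]; exact mul_le_mul (hGb _ hw) (hHb _ hw') (abs_nonneg _) hC0
      have i2 : |H (s + t) * G (r + t)| ≤ ε * C := by
        rw [abs_mul]; exact mul_le_mul (hHb _ hw) (hGb _ hw') (abs_nonneg _) hε0.le
      have i3 : |H (s + t) * H (r + t)| ≤ ε * ε := by
        rw [abs_mul]; exact mul_le_mul (hHb _ hw) (hHb _ hw') (abs_nonneg _) hε0.le
      have i4 := abs_add_three (G (s + t) * H (r + t)) (H (s + t) * G (r + t))
        (H (s + t) * H (r + t))
      nlinarith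
    have hcross' := (abs_le.1 hcross).2
    have h6 := mul_le_mul_of_nonneg_left hcross' (by positivity : (0:ℝ) ≤ 4 * (θ / 4) ^ 2)
    have h7 := mul_le_mul_of_nonneg_left h5' (by positivity : (0:ℝ) ≤ 2 * (θ / 4))
    have h8 : 4 * (θ / 4) ^ 2 * (ε * (2 * C + 1)) + 2 * (θ / 4) * ε = ε * B := by
      rw [hB]; ring
    nlinarith
  intro s hs r hr t ht
  by_cases hne : s = r
  · subst hne
    -- approximate `s` by other points
    have hclos : ∀ y ∈ Icc (-(1 / 2) : ℝ) (1 / 2), y ≠ s →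
        4 * (θ / 4) ^ 2 * (P (SS K) (ww a) (fun q => q.2.1) (fun q => q.2.2) t y *
          P (SS K) (ww a) (fun q => q.2.1) (fun q => q.2.2) t s) +
        θ / 4 * D (SS K) (ww a) (fun q => q.2.1) (fun q => q.2.2) y s t +
          (θ ^ 2 / 4 - δ) + θ ^ 4 / 64 * (y - s) ^ 2 ≤ 0 := fun y hy hys => hoff y hy s hs t ht hys
    have hcontf : Continuous fun y =>
        4 * (θ / 4) ^ 2 * (P (SS K) (ww a) (fun q => q.2.1) (fun q => q.2.2) t y *
          P (SS K) (ww a) (fun q => q.2.1) (fun q => q.2.2) t s) +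
        θ / 4 * D (SS K) (ww a) (fun q => q.2.1) (fun q => q.2.2) y s t +
          (θ ^ 2 / 4 - δ) + θ ^ 4 / 64 * (y - s) ^ 2 :=
      (((continuous_const.mul ((P_continuous_right (SS K) (ww a) _ _ t).mul continuous_const)).add
        (continuous_const.mul (D_continuous (SS K) (ww a) _ _ s t))).add continuous_const).add
          (by fun_prop)
    -- points `s + ρ (0 - s)`-style: use `y = s (1 - η)` or `η` when `s = 0`
    set v : ℝ := if 0 < s then -1 else 1 with hv
    have hseq : Filter.Tendsto (fun n : ℕ => s + v * (1 / ((n : ℝ) + 2))) Filter.atTop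
        (nhds (s + v * 0)) := by
      have h1 : Filter.Tendsto (fun n : ℕ => 1 / ((n : ℝ) + 2)) Filter.atTop (nhds 0) := by
        have := (tendsto_one_div_add_atTop_nhds_zero_nat (𝕜 := ℝ)).comp (Filter.tendsto_add_atTop_nat 1)
        refine this.congr fun n => ?_
        simp only [Function.comp]
        push_cast
        ring_nf
      exact (h1.const_mul v).const_add s
    rw [mul_zero, add_zero] at hseq
    have hlim := (hcontf.tendsto s).comp hseq
    refine le_of_tendsto hlim (Filter.Eventually.of_forall fun n => ?_)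
    have hn : (0:ℝ) < 1 / ((n : ℝ) + 2) := by positivity
    have hn2 : 1 / ((n : ℝ) + 2) ≤ 1 / 2 := by
      refine one_div_le_one_div_of_le (by norm_num) ?_
      have : (0:ℝ) ≤ n := Nat.cast_nonneg n
      linarith
    refine hclos _ ?_ ?_
    · by_cases h0 : 0 < s
      · simp only [hv, if_pos h0]
        constructor <;> linarith [hs.1, hs.2]
      · simp only [hv, if_neg h0]
        have : s ≤ 0 := not_lt.1 h0
        constructor <;> linarith [hs.1, hs.2]
    · by_cases h0 : 0 < s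
      · simp only [hv, if_pos h0]
        intro h
        linarith
      · simp only [hv, if_neg h0]
        intro h
        linarith
  · exact hoff s hs r hr t ht hne

end Pool.Agent.Q93.LT
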