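import Pool.Agent.Q93.LT.Lim
import Pool.Agent.Q93.LT.Ker
import Pool.Agent.Q75.LT.Sol
import Pool.Agent.Q177.LT.Fin

set_option autoImplicit false

open MeasureTheory Set Filter Topology Real
open scoped RealInnerProductSpace ENNReal

namespace Pool.Agent.Q93.LT

open Pool.Helper490.Calib

/-- A locally integrable function with vanishing integrals vanishes almost everywhere. -/
lemma ae_zero_of_integral {F : Type*} [NormedAddCommGroup F] [NormedSpace ℝ F] [CompleteSpace F]
    {g : ℝ → F} (hg : MemLp g 2) (h : ∀ a b, ∫ x in a..b, g x = 0) : ∀ᵐ x, g x = 0 := by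
  have h1 : LocallyIntegrable g volume := hg.locallyIntegrable (by norm_num)
  filter_upwards [_root_.LocallyIntegrable.ae_hasDerivAt_integral h1] with x hx
  have h2 := hx 0
  have h3 : (fun x => ∫ t in (0:ℝ)..x, g t) = fun _ => 0 := funext fun y => h 0 y
  rw [h3] at h2
  exact h2.unique (hasDerivAt_const x 0)

variable {E : Type} [NormedAddCommGroup E] [InnerProductSpace ℝ E] [FiniteDimensional ℝ E]

/-- **The optimisers for real systems.** -/
theorem HSys.soliton {u g : ℝ → E} (h : HSys u g)
    (heq : ∫ x, ‖g x‖ ^ 2 = π ^ 2 / 4 * ∫ x, (‖u x‖ ^ 2) ^ 3) (h0 : ∃ x, u x ≠ 0) :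
    ∃ (e : E) (b a : ℝ), ‖e‖ = 1 ∧ 0 < b ∧ ∀ x, u x = √(b / (π * cosh (b * (x - a)))) • e := by
  obtain ⟨heig, hg⟩ := h.equality ker heq
  have hVi : ∀ a b, IntervalIntegrable (Vlim u) volume a b := fun a b =>
    (h.gii a b).congr_ae (ae_restrict_of_ae hg)
  have hVm : AEStronglyMeasurable (Vlim u) volume := h.hg2.1.congr hg
  have huV : ∀ a b, u b - u a = ∫ x in a..b, Vlim u x := by
    intro a b
    rw [h.hug a b]
    exact intervalIntegral.integral_congr_ae (hg.mono fun x hx _ => hx)
  have hGc : Continuous (Gam u) := continuous_iff_continuousAt.2 fun x => (h.Gam_deriv x).continuousAt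
  refine Pool.Agent.Q75.LTSol.sol E u (Gam u) (lamOf u) h.uc h.Gam_deriv heig
    (fun x hx => ⟨h.lam_pos hx (heig x), h.lam_lt hx (heig x)⟩) (fun x hx => ?_) h0
  have hl0 := h.lam_pos hx (heig x)
  have hl1 := h.lam_lt hx (heig x)
  have hsin : sin (π * lamOf u x) ≠ 0 := by
    refine (sin_pos_of_pos_of_lt_pi (by positivity) ?_).ne'
    nlinarith [pi_pos]
  have hlc : ContinuousAt (lamOf u) x := by
    unfold lamOf
    refine ContinuousAt.div ?_ ?_ ?_
    · exact ((hGc.clm_apply h.uc).inner h.uc).continuousAt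
    · exact (h.uc.norm.pow 2).continuousAt
    · positivity
  have hVc : ContinuousAt (Vlim u) x := by
    unfold Vlim
    refine ContinuousAt.smul ?_ h.uc.continuousAt
    refine ContinuousAt.mul ?_ ?_
    · exact (continuous_const.mul (h.uc.norm.pow 2)).continuousAt
    · refine ContinuousAt.div ?_ ?_ hsin
      · exact continuous_cos.continuousAt.comp (continuousAt_const.mul hlc)
      · exact continuous_sin.continuousAt.comp (continuousAt_const.mul hlc)
  have h1 : HasDerivAt (fun y => ∫ t in x..y, Vlim u t) (Vlim u x) x :=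
    intervalIntegral.integral_hasDerivAt_right (hVi x x)
      (hVm.stronglyMeasurableAtFilter) hVc
  have h2 : u = fun y => u x + ∫ t in x..y, Vlim u t := by
    funext y
    rw [← huV]; abel
  have h3 := h1.const_add (u x)
  rw [← h2] at h3
  exact h3

end Pool.Agent.Q93.LT
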