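import Pool.Agent.Helper490.CalibMain
import Pool.Agent.Helper490.LTSech

/-!
Project LT of helper93: the optimisers of the sharp kinetic inequality in dimension one
(MP_cfe56d_mp).  Statements of the lemma jobs, with proofs in the docstrings.
-/

set_option autoImplicit false

open MeasureTheory Set Filter Topology Real Finset
open scoped RealInnerProductSpace

namespace Pool.Agent.Q93.LT

open Pool.Helper490.Calib

/-- Job KER.  Copy the proof of `Pool.Helper490.Calib.exists_kernel` (file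
`Pool/Agent/Helper490/CalibKer.lean`); the three lemmas to change are:

(a) `tan_key'`: for `a, b ∈ (-π/2, π/2)`, `b < a`, `a - b ≤ π / 2` (or `<`):
`1 + tan a tan b + (a - b)^2 / 4 ≤ (tan a - tan b) / (a - b)`.
Proof: with `x = a - b` the inequality, multiplied by `x cos a cos b > 0`, reads
`x cos x + x^3/4 * (cos a cos b) ≤ sin x`, and `0 < cos a cos b ≤ 1`, so
`sin x - x cos x ≥ x^3 / 4` for `0 ≤ x ≤ π/2` is enough.  Proof of that: the derivative of the
difference is `x sin x - 3 x^2 / 4 = x (sin x - 3 x / 4)`; it is positive for small `x`, but near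
`π/2` it is negative (`1 < 3π/8`), so use instead `sin x ≥ x - x^3/6` (Mathlib: `sin_gt_sub_cube`
only for `x ≤ 1` with constant 1/4; better: `Real.cos_le_one_sub_mul_cos_sq`, or prove by
differentiating) : the function `f x = sin x - x cos x - (x^3/3 - x^5/30)` has
`f' x = x (sin x - x + x^3/6) ≥ 0` for `x ≥ 0`, and `x^3/3 - x^5/30 ≥ x^3/4` iff `x^2 ≤ 5/2`, and
`(π/2)^2 < 2.47 < 5/2` (`Real.pi_lt_d2`).  `sin x ≥ x - x^3/6` for `x ≥ 0`: differentiate three
times, or `Real.sin_ge_...` if in Mathlib.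

(b) `tan_kernel'`: as `tan_kernel` with `+ θ^4 / 64 * (s - r)^2` on the left (here
`a - b = θ/2 (s - r)`, and `θ^2/4 * ((θ/2)(s-r))^2/4 = θ^4/64 (s-r)^2`); everything is multiplied
by `θ^2/4`.

(c) in `exists_kernel` replace `tan_kernel` by `tan_kernel'`, and take `ε = min (min 1 (δ/B)) δ`, so
that `|F x - G x| ≤ ε ≤ δ` on `[-1, 1]` gives the last statement (`P s t = F (s+t)`,
`G x = - tan (θ/2 x)`).  The diagonal case `s = r` is the same limit (the added term vanishes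
there and is continuous). -/
def S_KER : Prop := ∀ θ : ℝ, 0 < θ → θ < π → ∀ δ : ℝ, 0 < δ →
    ∃ (K : ℕ) (a : ℕ → ℝ),
      (∀ s t, P (SS K) (ww a) (fun q => q.2.1) (fun q => q.2.2) s t =
        P (SS K) (ww a) (fun q => q.2.1) (fun q => q.2.2) t s) ∧
      (∀ s ∈ Set.Icc (-(1 / 2) : ℝ) (1 / 2), ∀ r ∈ Set.Icc (-(1 / 2) : ℝ) (1 / 2),
        ∀ t ∈ Set.Icc (-(1 / 2) : ℝ) (1 / 2),
        4 * (θ / 4) ^ 2 * (P (SS K) (ww a) (fun q => q.2.1) (fun q => q.2.2) t s *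
          P (SS K) (ww a) (fun q => q.2.1) (fun q => q.2.2) t r) +
        θ / 4 * D (SS K) (ww a) (fun q => q.2.1) (fun q => q.2.2) s r t +
          (θ ^ 2 / 4 - δ) + θ ^ 4 / 64 * (s - r) ^ 2 ≤ 0) ∧
      ∀ s ∈ Set.Icc (-(1 / 2) : ℝ) (1 / 2), ∀ t ∈ Set.Icc (-(1 / 2) : ℝ) (1 / 2),
        |P (SS K) (ww a) (fun q => q.2.1) (fun q => q.2.2) s t + tan (θ / 2 * (s + t))| ≤ δ

/-- Job SOL.  (`R u x v = ⟪u x, v⟫ • u x`, see `Pool.Helper490.Calib.R_apply`.)

Proof.  Let `x₁` be a point with `u x₁ ≠ 0`, `e = u x₁ / ‖u x₁‖`, `ρ = ‖u‖²`,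
`c = ρ x₁ / sin (π lam x₁) > 0` (as `0 < lam x₁ < 1`), and `b = π c`; choose `a` with
`exp (b (x₁ - a)) = tan (π lam x₁ / 2)` (`> 0`).
LOCAL STEP: let `J` be an open interval around a point `x₂` on which `u ≠ 0` (exists as `u` is
continuous).  On `J`, writing `h x = π/2 ρ cos(π lam)/sin(π lam)`, `u' = h u`:
 * for every `v` the function `⟪u, v⟫^2 / ρ` has derivative zero (`(⟪u,v⟫^2)' = 2 h ⟪u,v⟫^2`,
   `ρ' = 2 h ρ`), better: `⟪u x, v⟫ / √ρ` or the vector function `(√ρ)⁻¹ • u` has derivative zero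
   (`(√ρ)' = h √ρ`), so `u x = √(ρ x) • e₂` on `J` with `e₂ = u x₂ / ‖u x₂‖`;
 * so `Γ x e₂ = lam x • e₂` on `J`, `lam x = ⟪Γ x e₂, e₂⟫`, thus `lam` has the derivative
   `⟪R u x e₂, e₂⟫ = ⟪u x, e₂⟫^2 = ρ x` on `J`;
 * so `ρ / sin (π lam)` has derivative `(2 h ρ sin - ρ π cos ρ) / sin² = 0` on `J`: constant `c₂`;
 * so `lam' = c₂ sin (π lam)` and `log (tan (π lam / 2))` has derivative
   `π lam' / (2 sin(π lam/2) cos(π lam/2)) = π lam' / sin (π lam) = π c₂` on `J`: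
   `tan (π lam x / 2) = exp (π c₂ (x - a₂))` on `J`; then `sin (π lam) = 2t/(1+t²)` with
   `t = exp(b₂ (x - a₂))`, that is `sin (π lam) = 1 / cosh (b₂ (x - a₂))`, `b₂ = π c₂`, and
   `ρ x = c₂ / cosh (b₂ (x - a₂)) = b₂ / (π cosh (b₂ (x - a₂)))`.
GLOBAL STEP: let `A` be the set of all `x` with `u x = √(b/(π cosh(b(x-a)))) • e` and
`tan (π lam x / 2) = exp (b (x-a))`.  `x₁ ∈ A` (by the computation `ρ = c sin(π lam)`).  `A` is open
by the local step (the constants `e₂, c₂, a₂` of the step at `x₂ ∈ A` are `e, c, a`, because they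
are determined by the values at `x₂`).  `A` is closed: if `x_n ∈ A`, `x_n → x`, then `u x` is the
limit, which is not zero, so `lam` is continuous at `x` (`lam y = ⟪Γ y (u y), u y⟫ / ρ y` near `x`)
and `tan (π lam x / 2) = exp (b (x - a))` by continuity (`0 < lam x < 1`).  So `A = ℝ`
(`IsClopen.eq_univ`). -/
def S_SOL : Prop := ∀ (E : Type) [NormedAddCommGroup E] [InnerProductSpace ℝ E]
    [FiniteDimensional ℝ E] (u : ℝ → E) (Γ : ℝ → E →L[ℝ] E) (lam : ℝ → ℝ), Continuous u →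
    (∀ x, HasDerivAt Γ (R u x) x) → (∀ x, Γ x (u x) = lam x • u x) →
    (∀ x, u x ≠ 0 → 0 < lam x ∧ lam x < 1) →
    (∀ x, u x ≠ 0 →
      HasDerivAt u ((π / 2 * ‖u x‖ ^ 2 * (cos (π * lam x) / sin (π * lam x))) • u x) x) →
    (∃ x, u x ≠ 0) →
    ∃ (e : E) (b a : ℝ), ‖e‖ = 1 ∧ 0 < b ∧ ∀ x, u x = √(b / (π * cosh (b * (x - a)))) • e

/-- Job FIN.  The integrals of the soliton.  With `Pool.Helper490.Sech.w x = (√(cosh x))⁻¹` and its
derivative `w'` one has `v x = z √(b/π) w (b (x - a))`, so `v' x = z √(b/π) b w' (b (x-a))`, and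
`∫ w² = π`, `∫ (w²)³ = π/2`, `∫ w'² = π/8` (`integral_w_sq`, `integral_w_six`, `integral_w'_sq`);
substitution `y = b (x - a)` (`integral_comp_mul_left`, `integral_sub_right_eq_self`).  The given
`g` is equal to `v'` almost everywhere: both are locally integrable and
`∫ x in s..t, (g x - v' x) = 0` for all `s, t` (differentiate the primitive:
`LocallyIntegrable` + Lebesgue's theorem, or `MeasureTheory.ae_eq_of_forall_setIntegral_eq...` on the
pi-system of intervals). -/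
def S_FIN : Prop := ∀ (z : ℂ) (b a : ℝ), ‖z‖ = 1 → 0 < b → ∀ v g : ℝ → ℂ,
    (∀ x, v x = z * ((√(b / (π * cosh (b * (x - a)))) : ℝ) : ℂ)) → MemLp g 2 →
    (∀ s t, v t - v s = ∫ x in s..t, g x) →
    MemLp v 2 ∧ ∫ x, ‖v x‖ ^ 2 = 1 ∧ ∫ x, (‖v x‖ ^ 2) ^ 3 = b ^ 2 / (2 * π ^ 2) ∧
      ∫ x, ‖g x‖ ^ 2 = b ^ 2 / 8

end Pool.Agent.Q93.LT
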