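import Pool.Agent.Q93.LT.Cal2
import Pool.Agent.Q93.LT.Stm

set_option autoImplicit false

open MeasureTheory Set Filter Topology Real
open scoped RealInnerProductSpace ENNReal

namespace Pool.Agent.Q93.LT

open Pool.Helper490.Calib

variable {E : Type*} [NormedAddCommGroup E] [InnerProductSpace ℝ E] [FiniteDimensional ℝ E]

/-- The ratio of the moments: the eigenvalue if `u` is an eigenvector. -/
noncomputable def lamOf (u : ℝ → E) (x : ℝ) : ℝ := ⟪Gam u x (u x), u x⟫ / ‖u x‖ ^ 2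

/-- The limit of the calibrating fields at an eigenvector. -/
noncomputable def Vlim (u : ℝ → E) (x : ℝ) : E :=
  (π / 2 * ‖u x‖ ^ 2 * (cos (π * lamOf u x) / sin (π * lamOf u x))) • u x

namespace HSys

variable {u g : ℝ → E} (h : HSys u g)
include h

/-- The approximating inequalities. -/
lemma step (hker : S_KER) {θ δ : ℝ} (h0 : 0 < θ) (h1 : θ < π) (hδ : 0 < δ) :
    ∃ (K : ℕ) (a : ℕ → ℝ),
      (∀ s ∈ Icc (-(1 / 2) : ℝ) (1 / 2), ∀ t ∈ Icc (-(1 / 2) : ℝ) (1 / 2),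
        |P (SS K) (ww a) (fun q => q.2.1) (fun q => q.2.2) s t + tan (θ / 2 * (s + t))| ≤ δ) ∧
      (θ ^ 2 / 4 - δ) * (∫ x, (‖u x‖ ^ 2) ^ 3) +
        2 * (θ ^ 4 / 64) * (∫ x, ‖u x‖ ^ 2 * Rem u x) +
        (∫ x, ‖g x - VF (SS K) (ww a) (fun q => q.2.1) (fun q => q.2.2) (θ / 4) u x‖ ^ 2) ≤
        ∫ x, ‖g x‖ ^ 2 := by
  obtain ⟨K, a, hsym, hK, hcl⟩ := hker θ h0 h1 δ hδ
  exact ⟨K, a, hcl, h.calibrated' (SS K) (ww a) (fun q => q.2.1) (fun q => q.2.2) (θ / 4)
    (θ ^ 2 / 4 - δ) (θ ^ 4 / 64) hsym hK⟩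

/-- The sharp inequality with the remainder. -/
theorem sharp_rem (hker : S_KER) : π ^ 2 / 4 * (∫ x, (‖u x‖ ^ 2) ^ 3) +
    π ^ 4 / 32 * (∫ x, ‖u x‖ ^ 2 * Rem u x) ≤ ∫ x, ‖g x‖ ^ 2 := by
  set A := ∫ x, (‖u x‖ ^ 2) ^ 3 with hA
  set B := ∫ x, ‖u x‖ ^ 2 * Rem u x with hB
  have hstep : ∀ θ : ℝ, 0 < θ → θ < π →
      (θ ^ 2 / 4 - (π - θ)) * A + 2 * (θ ^ 4 / 64) * B ≤ ∫ x, ‖g x‖ ^ 2 := by
    intro θ h0 h1
    obtain ⟨K, a, -, h2⟩ := h.step hker h0 h1 (δ := π - θ) (by linarith)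
    refine le_trans ?_ h2
    have : 0 ≤ ∫ x, ‖g x - VF (SS K) (ww a) (fun q => q.2.1) (fun q => q.2.2) (θ / 4) u x‖ ^ 2 :=
      integral_nonneg fun x => sq_nonneg _
    linarith
  have hcont : Continuous fun θ : ℝ => (θ ^ 2 / 4 - (π - θ)) * A + 2 * (θ ^ 4 / 64) * B := by
    fun_prop
  have hlim : Tendsto (fun θ : ℝ => (θ ^ 2 / 4 - (π - θ)) * A + 2 * (θ ^ 4 / 64) * B) (𝓝[<] π)
      (𝓝 ((π ^ 2 / 4 - (π - π)) * A + 2 * (π ^ 4 / 64) * B)) :=
    hcont.continuousAt.tendsto.mono_left nhdsWithin_le_nhds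
  have hle : ∀ᶠ θ : ℝ in 𝓝[<] π,
      (θ ^ 2 / 4 - (π - θ)) * A + 2 * (θ ^ 4 / 64) * B ≤ ∫ x, ‖g x‖ ^ 2 := by
    have : Ioo (0:ℝ) π ∈ 𝓝[<] π := Ioo_mem_nhdsLT pi_pos
    filter_upwards [this] with θ hθ
    exact hstep θ hθ.1 hθ.2
  have := le_of_tendsto hlim hle
  calc π ^ 2 / 4 * A + π ^ 4 / 32 * B = (π ^ 2 / 4 - (π - π)) * A + 2 * (π ^ 4 / 64) * B := by ring
    _ ≤ _ := this

/-- If the remainder vanishes then `u x` is an eigenvector. -/
lemma eigen_of_rem {x : ℝ} (hr : Rem u x = 0) : Gam u x (u x) = lamOf u x • u x := by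
  by_cases hu0 : u x = 0
  · simp [hu0]
  have hpos : 0 < ‖u x‖ ^ 2 := by positivity
  set B := Bop u x with hB
  have m0 : mo u 0 x = ‖u x‖ ^ 2 := h.mo_zero x
  have m2 : mo u 2 x = ‖B (u x)‖ ^ 2 := by
    rw [← real_inner_self_eq_norm_sq, h.Bop_symm, mo, pow_two, mul_apply_eq_comp]
  have m1 : mo u 1 x = ⟪u x, B (u x)⟫ := by rw [mo, pow_one]
  rw [Rem, m0, m2, m1] at hr
  -- equality in Cauchy-Schwarz
  set c : ℝ := ⟪u x, B (u x)⟫ / ‖u x‖ ^ 2 with hc
  have h1 : ‖B (u x) - c • u x‖ ^ 2 = 0 := by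
    rw [norm_sub_sq_real, norm_smul, inner_smul_right, real_inner_comm, mul_pow, Real.norm_eq_abs,
      sq_abs]
    have e : c * ‖u x‖ ^ 2 = ⟪u x, B (u x)⟫ := by rw [hc]; field_simp
    have e2 : ‖B (u x)‖ ^ 2 * ‖u x‖ ^ 2 = (c * ‖u x‖ ^ 2) ^ 2 := by rw [e]; linarith
    have e3 : ‖B (u x)‖ ^ 2 = c ^ 2 * ‖u x‖ ^ 2 := by
      have : (‖B (u x)‖ ^ 2 - c ^ 2 * ‖u x‖ ^ 2) * ‖u x‖ ^ 2 = 0 := by
        rw [sub_mul, e2]; ring
      rcases mul_eq_zero.1 this with h2 | h2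
      · linarith
      · exact absurd h2 hpos.ne'
    rw [← e, e3]
    ring
  have h2 : B (u x) = c • u x := by
    have := pow_eq_zero_iff (two_ne_zero) |>.1 h1
    rwa [norm_eq_zero, sub_eq_zero] at this
  have h3 : Gam u x (u x) = (c + 1 / 2) • u x := by
    have : B (u x) = Gam u x (u x) - (1 / 2 : ℝ) • u x := by simp [hB, Bop]
    rw [add_smul, ← h2, this]
    abel
  have h4 : lamOf u x = c + 1 / 2 := by
    rw [lamOf, h3, real_inner_smul_left, real_inner_self_eq_norm_sq]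
    field_simp
  rw [h4, h3]

lemma lam_pos {x : ℝ} (hu0 : u x ≠ 0) (he : Gam u x (u x) = lamOf u x • u x) :
    0 < lamOf u x := by
  have hpos : 0 < ‖u x‖ ^ 2 := by positivity
  have h1 : ⟪Gam u x (u x), u x⟫ = lamOf u x * ‖u x‖ ^ 2 := by
    rw [he, real_inner_smul_left, real_inner_self_eq_norm_sq]
  have h2 := h.Gam_inner x (u x) (u x)
  have h3 : 0 < ∫ y in Iic x, ⟪u y, u x⟫ * ⟪u y, u x⟫ := by
    have hc : Continuous fun y => ⟪u y, u x⟫ * ⟪u y, u x⟫ :=
      (h.uc.inner continuous_const).mul (h.uc.inner continuous_const)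
    have hi : IntegrableOn (fun y => ⟪u y, u x⟫ * ⟪u y, u x⟫) (Iic x) := by
      refine (h.int_sq (u x)).integrableOn.congr_fun (fun y _ => ?_) measurableSet_Iic
      simp only [pow_two]
    refine (setIntegral_pos_iff_support_of_nonneg_ae
      (Eventually.of_forall fun y => mul_self_nonneg _) hi).2 ?_
    -- the support contains an interval to the left of `x`
    have hx : 0 < ⟪u x, u x⟫ * ⟪u x, u x⟫ := by
      rw [real_inner_self_eq_norm_sq]; positivity
    have hev : ∀ᶠ y in 𝓝 x, 0 < ⟪u y, u x⟫ * ⟪u y, u x⟫ :=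
      hc.continuousAt.eventually (lt_mem_nhds hx)
    obtain ⟨ε, hε, hb⟩ := Metric.eventually_nhds_iff.1 hev
    have hsub : Ioc (x - ε / 2) x ⊆ Function.support (fun y => ⟪u y, u x⟫ * ⟪u y, u x⟫) ∩ Iic x := by
      intro y hy
      refine ⟨(hb ?_).ne', hy.2⟩
      rw [Real.dist_eq, abs_lt]
      constructor <;> linarith [hy.1, hy.2]
    refine lt_of_lt_of_le ?_ (measure_mono hsub)
    rw [Real.volume_Ioc]
    simp [hε]
  rw [h1] at h2
  rw [← h2] at h3
  by_contra hneg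
  nlinarith [not_lt.1 hneg]

lemma lam_lt {x : ℝ} (hu0 : u x ≠ 0) (he : Gam u x (u x) = lamOf u x • u x) :
    lamOf u x < 1 := by
  have hpos : 0 < ‖u x‖ ^ 2 := by positivity
  have h1 : ⟪Gam u x (u x), u x⟫ = lamOf u x * ‖u x‖ ^ 2 := by
    rw [he, real_inner_smul_left, real_inner_self_eq_norm_sq]
  have h2 := h.Gam_inner x (u x) (u x)
  have hc : Continuous fun y => ⟪u y, u x⟫ ^ 2 := (h.uc.inner continuous_const).pow 2
  have hi := h.int_sq (u x)
  have e1 : ∫ y in Iic x, ⟪u y, u x⟫ * ⟪u y, u x⟫ = ∫ y in Iic x, ⟪u y, u x⟫ ^ 2 := by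
    simp only [pow_two]
  have hsplit : (∫ y in Iic x, ⟪u y, u x⟫ ^ 2) + ∫ y in Ioi x, ⟪u y, u x⟫ ^ 2 =
      ∫ y, ⟪u y, u x⟫ ^ 2 := by
    rw [← compl_Iic]
    exact integral_add_compl measurableSet_Iic hi
  have h3 : 0 < ∫ y in Ioi x, ⟪u y, u x⟫ ^ 2 := by
    refine (setIntegral_pos_iff_support_of_nonneg_ae
      (Eventually.of_forall fun y => sq_nonneg _) hi.integrableOn).2 ?_
    have hx : 0 < ⟪u x, u x⟫ ^ 2 := by
      rw [real_inner_self_eq_norm_sq]; positivity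
    have hev : ∀ᶠ y in 𝓝 x, 0 < ⟪u y, u x⟫ ^ 2 :=
      hc.continuousAt.eventually (lt_mem_nhds hx)
    obtain ⟨ε, hε, hb⟩ := Metric.eventually_nhds_iff.1 hev
    have hsub : Ioo x (x + ε / 2) ⊆ Function.support (fun y => ⟪u y, u x⟫ ^ 2) ∩ Ioi x := by
      intro y hy
      refine ⟨(hb ?_).ne', hy.1⟩
      rw [Real.dist_eq, abs_lt]
      constructor <;> linarith [hy.1, hy.2]
    refine lt_of_lt_of_le ?_ (measure_mono hsub)
    rw [Real.volume_Ioo]
    simp [hε]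
  have h4 := h.hbes (u x)
  rw [h1, e1] at h2
  by_contra hneg
  nlinarith [not_lt.1 hneg]

/-- The calibrating field at an eigenvector. -/
lemma VF_eigen {x : ℝ} (he : Gam u x (u x) = lamOf u x • u x) (K : ℕ) (a : ℕ → ℝ) (κ : ℝ) :
    VF (SS K) (ww a) (fun q => q.2.1) (fun q => q.2.2) κ u x =
      (2 * κ * ‖u x‖ ^ 2 * P (SS K) (ww a) (fun q => q.2.1) (fun q => q.2.2)
        (lamOf u x - 1 / 2) (lamOf u x - 1 / 2)) • u x := by
  set e := lamOf u x - 1 / 2 with hee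
  have h1 : Bop u x (u x) = e • u x := by
    have : Bop u x (u x) = Gam u x (u x) - (1 / 2 : ℝ) • u x := by simp [Bop]
    rw [this, he, hee, sub_smul]
  have h2 : ∀ k, (Bop u x ^ k) (u x) = e ^ k • u x := by
    intro k
    induction k with
    | zero => simp
    | succ k ih => rw [pow_succ, mul_apply_eq_comp, h1, map_smul, ih, smul_smul, pow_succ, mul_comm]
  have h3 : ∀ k, mo u k x = e ^ k * ‖u x‖ ^ 2 := by
    intro k
    rw [mo, h2, real_inner_smul_right, real_inner_self_eq_norm_sq]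
  rw [VF, P, Finset.mul_sum, Finset.sum_smul]
  refine Finset.sum_congr rfl fun q _ => ?_
  rw [h2, h3, smul_smul]
  congr 1
  ring

/-- **Consequences of equality.** -/
theorem equality (hker : S_KER)
    (heq : ∫ x, ‖g x‖ ^ 2 = π ^ 2 / 4 * ∫ x, (‖u x‖ ^ 2) ^ 3) :
    (∀ x, Gam u x (u x) = lamOf u x • u x) ∧ ∀ᵐ x, g x = Vlim u x := by
  have hrem := h.sharp_rem hker
  have hr0 : ∫ x, ‖u x‖ ^ 2 * Rem u x = 0 := by
    have h1 : 0 ≤ ∫ x, ‖u x‖ ^ 2 * Rem u x :=
      integral_nonneg fun x => mul_nonneg (sq_nonneg _) (h.Rem_nonneg x)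
    have hpi : 0 < π ^ 4 / 32 := by positivity
    rw [heq] at hrem
    nlinarith
  have hRem : ∀ x, ‖u x‖ ^ 2 * Rem u x = 0 := by
    have hc : Continuous fun x => ‖u x‖ ^ 2 * Rem u x := (h.uc.norm.pow 2).mul h.Rem_cont
    have h1 := (integral_eq_zero_iff_of_nonneg (fun x => mul_nonneg (sq_nonneg _)
      (h.Rem_nonneg x)) h.rem_int).1 hr0
    have h2 := (hc.ae_eq_iff_eq volume continuous_zero).1 h1
    intro x
    exact congrFun h2 x
  have heig : ∀ x, Gam u x (u x) = lamOf u x • u x := by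
    intro x
    by_cases hu0 : u x = 0
    · simp [hu0]
    · refine h.eigen_of_rem ?_
      have hpos : ‖u x‖ ^ 2 ≠ 0 := by positivity
      exact (mul_eq_zero.1 (hRem x)).resolve_left hpos
  refine ⟨heig, ?_⟩
  -- the approximations
  set θ : ℕ → ℝ := fun n => π - 1 / ((n : ℝ) + 1) with hθ
  set δ : ℕ → ℝ := fun n => 1 / ((n : ℝ) + 1) with hδ
  have hδ0 : ∀ n, 0 < δ n := fun n => by simp only [hδ]; positivity
  have hδ1 : ∀ n, δ n ≤ 1 := fun n => by
    simp only [hδ]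
    rw [div_le_one (by positivity)]
    linarith [(Nat.cast_nonneg n : (0:ℝ) ≤ n)]
  have hδl : Tendsto δ atTop (𝓝 0) := tendsto_one_div_add_atTop_nhds_zero_nat
  have hθ0 : ∀ n, 0 < θ n := fun n => by
    have := hδ1 n
    have h3 := pi_gt_three
    simp only [hθ]; simp only [hδ] at this; linarith
  have hθ1 : ∀ n, θ n < π := fun n => by
    have := hδ0 n
    simp only [hθ]; simp only [hδ] at this; linarith
  have hθl : Tendsto θ atTop (𝓝 π) := by
    have := hδl.const_sub π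
    simpa using this
  choose K a hcl hin using fun n => h.step hker (hθ0 n) (hθ1 n) (hδ0 n)
  set V : ℕ → ℝ → E := fun n =>
    VF (SS (K n)) (ww (a n)) (fun q => q.2.1) (fun q => q.2.2) (θ n / 4) u with hV
  set A := ∫ x, (‖u x‖ ^ 2) ^ 3 with hA
  have hA0 : 0 ≤ A := integral_nonneg fun x => by positivity
  have hsq : ∀ n, ∫ x, ‖g x - V n x‖ ^ 2 ≤ (π ^ 2 / 4 - (θ n ^ 2 / 4 - δ n)) * A := by
    intro n
    have h1 := hin n
    rw [hr0, heq] at h1
    simp only [hV]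
    linarith
  have hlim0 : Tendsto (fun n => (π ^ 2 / 4 - (θ n ^ 2 / 4 - δ n)) * A) atTop (𝓝 0) := by
    have := (((hθl.pow 2).div_const 4).sub hδl).const_sub (π ^ 2 / 4) |>.mul_const A
    simpa using this
  -- pointwise limit
  have hpt : ∀ x, Tendsto (fun n => V n x) atTop (𝓝 (Vlim u x)) := by
    intro x
    by_cases hu0 : u x = 0
    · have e1 : ∀ n, V n x = 0 := fun n => by
        simp only [hV]
        rw [h.VF_eigen (heig x), hu0]; simp
      simp only [e1, Vlim, hu0, smul_zero]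
      exact tendsto_const_nhds
    · have hl0 := h.lam_pos hu0 (heig x)
      have hl1 := h.lam_lt hu0 (heig x)
      set e := lamOf u x - 1 / 2 with he
      have heI : e ∈ Icc (-(1 / 2) : ℝ) (1 / 2) := ⟨by linarith, by linarith⟩
      have e1 : ∀ n, V n x = (2 * (θ n / 4) * ‖u x‖ ^ 2 * P (SS (K n)) (ww (a n))
          (fun q => q.2.1) (fun q => q.2.2) e e) • u x := fun n => by
        simp only [hV]
        rw [h.VF_eigen (heig x)]
      have hP : Tendsto (fun n => P (SS (K n)) (ww (a n)) (fun q => q.2.1) (fun q => q.2.2) e e)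
          atTop (𝓝 (-tan (π / 2 * (e + e)))) := by
        have hcos : cos (π / 2 * (e + e)) ≠ 0 := by
          refine (cos_pos_of_mem_Ioo ⟨?_, ?_⟩).ne' <;> nlinarith [pi_pos]
        have ht : Tendsto (fun n => tan (θ n / 2 * (e + e))) atTop (𝓝 (tan (π / 2 * (e + e)))) :=
          (continuousAt_tan.2 hcos).tendsto.comp ((hθl.div_const 2).mul_const (e + e))
        have hd : Tendsto (fun n => P (SS (K n)) (ww (a n)) (fun q => q.2.1) (fun q => q.2.2) e e +
            tan (θ n / 2 * (e + e))) atTop (𝓝 0) :=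
          squeeze_zero_norm (fun n => by
            rw [Real.norm_eq_abs]; exact hcl n e heI e heI) hδl
        have := hd.sub ht
        simpa using this
      have hval : -tan (π / 2 * (e + e)) = cos (π * lamOf u x) / sin (π * lamOf u x) := by
        have : π / 2 * (e + e) = π * lamOf u x - π / 2 := by rw [he]; ring
        rw [this, tan_eq_sin_div_cos, sin_sub_pi_div_two, cos_sub_pi_div_two]
        ring
      rw [hval] at hP
      simp only [e1, Vlim]
      refine Tendsto.smul_const ?_ (u x)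
      have h2 := (((hθl.div_const 4).const_mul 2).mul_const (‖u x‖ ^ 2)).mul hP
      refine h2.congr' (Eventually.of_forall fun n => rfl) |>.trans ?_
      rw [show 2 * (π / 4) * ‖u x‖ ^ 2 = π / 2 * ‖u x‖ ^ 2 by ring]
  -- Fatou
  have hVm : ∀ n, AEMeasurable (fun x => ENNReal.ofReal (‖g x - V n x‖ ^ 2)) volume := by
    intro n
    exact (h.VF_sq_int _ _ _ _ _).1.aemeasurable.ennreal_ofReal
  have hF : ∫⁻ x, ENNReal.ofReal (‖g x - Vlim u x‖ ^ 2) ≤ 0 := by
    have h1 : ∀ x, liminf (fun n => ENNReal.ofReal (‖g x - V n x‖ ^ 2)) atTop =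
        ENNReal.ofReal (‖g x - Vlim u x‖ ^ 2) := by
      intro x
      refine Tendsto.liminf_eq ?_
      exact (ENNReal.continuous_ofReal.tendsto _).comp
        ((((hpt x).const_sub (g x)).norm).pow 2)
    have h2 : ∫⁻ x, liminf (fun n => ENNReal.ofReal (‖g x - V n x‖ ^ 2)) atTop ≤
        liminf (fun n => ∫⁻ x, ENNReal.ofReal (‖g x - V n x‖ ^ 2)) atTop :=
      lintegral_liminf_le' hVm
    simp only [h1] at h2
    refine h2.trans (le_of_eq ?_)
    have h3 : ∀ n, ∫⁻ x, ENNReal.ofReal (‖g x - V n x‖ ^ 2) =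
        ENNReal.ofReal (∫ x, ‖g x - V n x‖ ^ 2) := fun n =>
      (ofReal_integral_eq_lintegral_ofReal (h.VF_sq_int _ _ _ _ _)
        (Eventually.of_forall fun x => sq_nonneg _)).symm
    simp only [h3]
    have h4 : Tendsto (fun n => ∫ x, ‖g x - V n x‖ ^ 2) atTop (𝓝 0) :=
      squeeze_zero (fun n => integral_nonneg fun x => sq_nonneg _) hsq hlim0
    have h5 := (ENNReal.continuous_ofReal.tendsto 0).comp h4
    rw [ENNReal.ofReal_zero] at h5
    exact h5.liminf_eq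
  have hG : AEMeasurable (fun x => ENNReal.ofReal (‖g x - Vlim u x‖ ^ 2)) volume := by
    have hlimm : AEMeasurable (fun x => ‖g x - Vlim u x‖ ^ 2) volume := by
      refine aemeasurable_of_tendsto_metrizable_ae atTop (f := fun n x => ‖g x - V n x‖ ^ 2)
        (fun n => (h.VF_sq_int _ _ _ _ _).1.aemeasurable) (Eventually.of_forall fun x => ?_)
      exact (((hpt x).const_sub (g x)).norm).pow 2
    exact hlimm.ennreal_ofReal
  have h0 := (lintegral_eq_zero_iff' hG).1 (le_antisymm hF bot_le)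
  filter_upwards [h0] with x hx
  simp only [Pi.zero_apply, ENNReal.ofReal_eq_zero] at hx
  have : ‖g x - Vlim u x‖ ^ 2 = 0 := le_antisymm hx (sq_nonneg _)
  have := pow_eq_zero_iff (two_ne_zero) |>.1 this
  rwa [norm_eq_zero, sub_eq_zero] at this

end HSys

end Pool.Agent.Q93.LT
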